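import Pool.Agent.Lib.MP_8fac0f_nt.RL.Nb

/-!
# Many pairs of arguments with different Thue-Morse letters
-/

set_option autoImplicit false

namespace Pool.Agent.Lib.MP_8fac0f_nt.RL

open Finset Polynomial N

/-- The perturbation. -/
noncomputable def W (D : ℕ) (w : Fin (D + 1) → ℕ) : ℤ[X] :=
  ∑ i : Fin (D + 1), Polynomial.C (w i : ℤ) * X ^ (i : ℕ)

theorem W_coeff (D : ℕ) (w : Fin (D + 1) → ℕ) (i : Fin (D + 1)) :
    (W D w).coeff i = w i := by
  unfold W
  rw [finsetSum_coeff, sum_eq_single i]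
  · simp
  · intro j _ hj
    rw [coeff_C_mul, coeff_X_pow, if_neg (fun h => hj (Fin.ext h.symm)), mul_zero]
  · intro h
    exact absurd (mem_univ i) h

theorem W_natDegree (D : ℕ) (w : Fin (D + 1) → ℕ) : (W D w).natDegree ≤ D :=
  natDegree_sum_le_of_forall_le _ _ fun i _ =>
    (natDegree_C_mul_X_pow_le _ _).trans (Nat.lt_succ_iff.1 i.2)

theorem W_nb (D : ℕ) (w : Fin (D + 1) → ℕ) (M : ℤ) (hw : ∀ i, (w i : ℤ) < M) :
    Nb (W D w) ((D + 1) * M) := by
  have h := Nb.sum (univ : Finset (Fin (D + 1))) (fun i => Polynomial.C (w i : ℤ) * X ^ (i : ℕ))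
    (fun _ => M) (fun i _ => by
      have h1 := Nb.monomial (i : ℕ) (w i : ℤ)
      rw [← C_mul_X_pow_eq_monomial] at h1
      refine h1.mono ?_
      rw [abs_of_nonneg (by positivity)]
      exact (hw i).le)
  refine h.mono (le_of_eq ?_)
  simp

theorem sign_aux (p R c e f : ℤ) (hp : 1 ≤ p) (hR : 0 < R) (hc : c ≠ 0) (he : 2 * |e| ≤ R)
    (hf : 2 * |f| < R) :
    p * (R * c + e) + f ≠ 0 ∧ (p * (R * c + e) + f < 0 ↔ c < 0) := by
  rcases lt_or_gt_of_ne hc with h | h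
  · have h1 : R * c ≤ -R := by nlinarith
    have h2 : 2 * (R * c + e) ≤ -R := by linarith [le_abs_self e]
    have h3 : p * (2 * (R * c + e)) ≤ 2 * (R * c + e) := by nlinarith
    have h4 := le_abs_self f
    have h5 : p * (R * c + e) + f < 0 := by nlinarith
    exact ⟨h5.ne, ⟨fun _ => h, fun _ => h5⟩⟩
  · have h1 : R ≤ R * c := by nlinarith
    have h2 : R ≤ 2 * (R * c + e) := by linarith [neg_abs_le e]
    have h3 : 2 * (R * c + e) ≤ p * (2 * (R * c + e)) := by nlinarith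
    have h4 := neg_abs_le f
    have h5 : 0 < p * (R * c + e) + f := by nlinarith
    exact ⟨h5.ne', ⟨fun h6 => absurd h6 (not_lt.2 h5.le), fun h6 => absurd h6 (not_lt.2 h.le)⟩⟩

theorem shape (A P : ℤ[X]) (D d : ℕ) (hA : 0 < A.leadingCoeff) (hd : P.natDegree = d + 1)
    (hP : 0 < P.leadingCoeff) (hne : ∀ l ≤ D * (d + 1), (A ^ (d + 1)).coeff l ≠ 0) :
    ∃ L B H M0 : ℤ, 1 ≤ L ∧ 1 ≤ B ∧ 0 ≤ H ∧ ∀ M : ℤ, M0 ≤ M → 1 ≤ M →
      ∀ w : Fin (D + 1) → ℕ, (∀ i, (w i : ℤ) < M) →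
      Nb (C (L * M) * A + W D w) (B * M) ∧
      Nb (P.comp (C (L * M) * A + W D w)) (H * M ^ (d + 1)) ∧
      ∀ l ≤ D * (d + 1), (P.comp (C (L * M) * A + W D w)).coeff l ≠ 0 ∧
        ((P.comp (C (L * M) * A + W D w)).coeff l < 0 ↔ (A ^ (d + 1)).coeff l < 0) := by
  obtain ⟨a, ha⟩ := exists_nb A
  have ha1 : 1 ≤ a := by
    have := ha.coeff A.natDegree
    change |A.leadingCoeff| ≤ a at this
    rw [abs_of_pos hA] at this
    omega
  set L : ℤ := 2 * (d + 1) * (D + 1) * (a + D + 1) ^ d with hL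
  have hs1 : (1 : ℤ) ≤ (a + D + 1) ^ d := one_le_pow₀ (by omega)
  have hL1 : 1 ≤ L := by
    have h1 : (1 : ℤ) ≤ 2 * (d + 1) * (D + 1) := by nlinarith
    calc (1 : ℤ) = 1 * 1 := by ring
      _ ≤ L := mul_le_mul h1 hs1 (by norm_num) (by positivity)
  set B : ℤ := L * a + D + 1 with hB
  have hB1 : 1 ≤ B := by nlinarith
  set H1 : ℤ := ∑ i ∈ range (d + 1), |P.coeff i| with hH1
  have hH1' : 0 ≤ H1 := sum_nonneg fun i _ => abs_nonneg _
  set p : ℤ := P.coeff (d + 1) with hp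
  have hp1 : 1 ≤ p := by
    have : P.leadingCoeff = p := by rw [leadingCoeff, hd]
    omega
  have hBd : 2 * (d + 1) * (D + 1) * B ^ d ≤ L ^ (d + 1) := by
    have h1 : B ≤ L * (a + D + 1) := by nlinarith
    have h2 : B ^ d ≤ (L * (a + D + 1)) ^ d := pow_le_pow_left₀ (by omega) h1 d
    calc 2 * (d + 1) * (D + 1) * B ^ d ≤ 2 * (d + 1) * (D + 1) * (L * (a + D + 1)) ^ d :=
          mul_le_mul_of_nonneg_left h2 (by positivity)
      _ = L ^ d * L := by rw [mul_pow, hL]; ring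
      _ = L ^ (d + 1) := by ring
  refine ⟨L, B, (H1 + p) * B ^ (d + 1), 2 * H1 * B ^ d + 1, hL1, hB1, by positivity, ?_⟩
  intro M hM hM1 w hw
  set T0 : ℤ[X] := C (L * M) * A with hT0
  set T : ℤ[X] := T0 + W D w with hT
  have hLM : 1 ≤ L * M := by nlinarith
  have nT0 : Nb T0 (L * M * a) := by
    have := (Nb.C (L * M)).mul ha
    rwa [abs_of_pos (by omega)] at this
  have nW := W_nb D w M hw
  have nT : Nb T (B * M) := (nT0.add nW).mono (le_of_eq (by rw [hB]; ring))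
  have nT0' : Nb T0 (B * M) := nT0.mono (by rw [hB]; nlinarith)
  have nd : Nb (T - T0) ((D + 1) * M) := by
    have : T - T0 = W D w := by rw [hT]; ring
    rw [this]; exact nW
  have nerr := nT.pow_sub nT0' nd d
  have hBM : 1 ≤ B * M := by nlinarith
  have hcomp : P.comp T = (∑ i ∈ range (d + 1), C (P.coeff i) * T ^ i) + C p * T ^ (d + 1) := by
    rw [Polynomial.comp, eval₂_eq_sum_range, hd, sum_range_succ]
  have nlow : Nb (∑ i ∈ range (d + 1), C (P.coeff i) * T ^ i) (H1 * (B * M) ^ d) := by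
    have h := Nb.sum (range (d + 1)) (fun i => C (P.coeff i) * T ^ i)
      (fun i => |P.coeff i| * (B * M) ^ d) (fun i hi => ?_)
    · rw [← sum_mul] at h; exact h
    · refine ((Nb.C (P.coeff i)).mul (nT.pow i)).mono ?_
      exact mul_le_mul_of_nonneg_left
        (pow_le_pow_right₀ hBM (Nat.lt_succ_iff.1 (mem_range.1 hi))) (abs_nonneg _)
  refine ⟨nT, ?_, ?_⟩
  · rw [hcomp]
    refine (nlow.add ((Nb.C p).mul (nT.pow (d + 1)))).mono ?_
    rw [abs_of_pos (by omega)]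
    have h1 : (B * M) ^ d ≤ (B * M) ^ (d + 1) := pow_le_pow_right₀ hBM (Nat.le_succ d)
    have h2 : H1 * (B * M) ^ d ≤ H1 * (B * M) ^ (d + 1) := mul_le_mul_of_nonneg_left h1 hH1'
    calc H1 * (B * M) ^ d + p * (B * M) ^ (d + 1)
        ≤ H1 * (B * M) ^ (d + 1) + p * (B * M) ^ (d + 1) := by linarith
      _ = (H1 + p) * B ^ (d + 1) * M ^ (d + 1) := by rw [mul_pow]; ring
  · intro l hl
    set R : ℤ := (L * M) ^ (d + 1) with hR
    have hRpos : 0 < R := by positivity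
    set e : ℤ := (T ^ (d + 1) - T0 ^ (d + 1)).coeff l with he
    set f : ℤ := (∑ i ∈ range (d + 1), C (P.coeff i) * T ^ i).coeff l with hf
    set c : ℤ := (A ^ (d + 1)).coeff l with hc
    have h1 : (P.comp T).coeff l = p * (R * c + e) + f := by
      have e1 : (T0 ^ (d + 1)).coeff l = R * c := by
        rw [hT0, mul_pow, ← C_pow, coeff_C_mul]
      have e2 : (T ^ (d + 1)).coeff l = R * c + e := by
        rw [he, coeff_sub, e1]; ring
      rw [hcomp, coeff_add, coeff_C_mul, e2]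
      ring
    rw [h1]
    refine sign_aux p R c e f hp1 hRpos (hne l hl) ?_ ?_
    · have h2 := nerr.coeff l
      calc 2 * |e| ≤ 2 * ((d + 1) * (B * M) ^ d * ((D + 1) * M)) := by linarith
        _ = (2 * (d + 1) * (D + 1) * B ^ d) * M ^ (d + 1) := by rw [mul_pow]; ring
        _ ≤ L ^ (d + 1) * M ^ (d + 1) := mul_le_mul_of_nonneg_right hBd (by positivity)
        _ = R := by rw [hR]; exact (mul_pow L M (d + 1)).symm
    · have h2 := nlow.coeff l
      calc 2 * |f| ≤ 2 * (H1 * (B * M) ^ d) := by linarith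
        _ = (2 * H1 * B ^ d) * M ^ d := by rw [mul_pow]; ring
        _ < M * M ^ d := mul_lt_mul_of_pos_right (by omega) (by positivity)
        _ = 1 * M ^ (d + 1) := by ring
        _ ≤ L ^ (d + 1) * M ^ (d + 1) :=
          mul_le_mul_of_nonneg_right (one_le_pow₀ hL1) (by positivity)
        _ = R := by rw [hR]; exact (mul_pow L M (d + 1)).symm

end Pool.Agent.Lib.MP_8fac0f_nt.RL
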