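import Pool.Agent.Lib.MP_8fac0f_nt.RL.Rec

/-!
# The signs of the coefficients of a power of a quadratic polynomial
-/

set_option autoImplicit false

namespace Pool.Agent.Lib.MP_8fac0f_nt.RL

open Finset Polynomial N

theorem par (a b : ℕ) (h : Even (a + b)) : (-1 : ℤ) ^ a = (-1) ^ b := by
  rcases Nat.even_or_odd a with ha | ha <;> rcases Nat.even_or_odd b with hb | hb
  · rw [ha.neg_one_pow, hb.neg_one_pow]
  · exact absurd h (Nat.not_even_iff_odd.2 (ha.add_odd hb))
  · exact absurd h (Nat.not_even_iff_odd.2 (ha.add_even hb))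
  · rw [ha.neg_one_pow, hb.neg_one_pow]

theorem alt1 (m : ℕ) : ∀ u : ℕ → ℤ, (∀ j, 0 ≤ u j) → (∀ j, u (j + 1) ≤ u j) →
    0 ≤ ∑ j ∈ range m, (-1) ^ j * u j ∧ ∑ j ∈ range m, (-1) ^ j * u j ≤ u 0 := by
  induction m with
  | zero => intro u h0 _; simpa using h0 0
  | succ m ih =>
    intro u h0 h1
    obtain ⟨h2, h3⟩ := ih (fun j => u (j + 1)) (fun j => h0 _) (fun j => h1 _)
    have e1 : ∑ j ∈ range (m + 1), (-1) ^ j * u j =
        u 0 - ∑ j ∈ range m, (-1) ^ j * u (j + 1) := by
      rw [sum_range_succ', pow_zero, one_mul, sub_eq_neg_add, ← sum_neg_distrib]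
      congr 1
      refine sum_congr rfl fun j _ => ?_
      ring
    rw [e1]
    have h4 := h1 0
    simp only [zero_add] at h3 h4
    constructor <;> linarith

theorem alt2 (m : ℕ) (u : ℕ → ℤ) (h0 : ∀ j, 0 ≤ u j) (h1 : ∀ j, u (j + 1) ≤ u j)
    (h2 : u 1 < u 0) : 0 < ∑ j ∈ range (m + 1), (-1) ^ j * u j := by
  obtain ⟨-, h3⟩ := alt1 m (fun j => u (j + 1)) (fun j => h0 _) (fun j => h1 _)
  have e1 : ∑ j ∈ range (m + 1), (-1) ^ j * u j =
      u 0 - ∑ j ∈ range m, (-1) ^ j * u (j + 1) := by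
    rw [sum_range_succ', pow_zero, one_mul, sub_eq_neg_add, ← sum_neg_distrib]
    congr 1
    refine sum_congr rfl fun j _ => ?_
    ring
  rw [e1]
  simp only [zero_add] at h3
  linarith

theorem alt3 (m : ℕ) (u : ℕ → ℤ) (h0 : ∀ j, 0 ≤ u j) (h1 : ∀ j, u (j + 2) ≤ u (j + 1))
    (h2 : u 1 = 2 * u 0) (h3 : u 2 < u 0) : ∑ j ∈ range (m + 2), (-1) ^ j * u j < 0 := by
  obtain ⟨-, h4⟩ := alt1 m (fun j => u (j + 2)) (fun j => h0 _) (fun j => h1 (j + 1))
  have e1 : ∑ j ∈ range (m + 2), (-1) ^ j * u j =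
      ∑ j ∈ range m, (-1) ^ j * u (j + 2) - u 1 + u 0 := by
    rw [sum_range_succ', sum_range_succ']
    have : ∑ k ∈ range m, (-1 : ℤ) ^ (k + 1 + 1) * u (k + 1 + 1) =
        ∑ j ∈ range m, (-1) ^ j * u (j + 2) := sum_congr rfl fun j _ => by ring
    rw [this]
    ring
  rw [e1]
  simp only [zero_add] at h4
  linarith

/-- The terms of the coefficient formula. -/
def U (n E l j : ℕ) : ℕ :=
  if 2 * j ≤ l then n.choose j * (n - j).choose (l - 2 * j) * E ^ (n - j) else 0

theorem coeff_formula (n E l : ℕ) (hn : Even n) :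
    (((X : ℤ[X]) ^ 2 + C (E : ℤ) * (X + C (-1))) ^ n).coeff l =
      (-1) ^ l * ∑ j ∈ range (n + 1), (-1) ^ j * (U n E l j : ℤ) := by
  rw [add_pow, finsetSum_coeff, mul_sum]
  refine sum_congr rfl fun j hj => ?_
  have hj' : j ≤ n := Nat.lt_succ_iff.1 (mem_range.1 hj)
  have e1 : ((X : ℤ[X]) ^ 2) ^ j * (C (E : ℤ) * (X + C (-1))) ^ (n - j) * (n.choose j : ℤ[X]) =
      C ((n.choose j : ℤ) * (E : ℤ) ^ (n - j)) * ((X + C (-1)) ^ (n - j) * X ^ (2 * j)) := by
    rw [mul_pow, ← pow_mul, C_mul, C_pow]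
    have : (n.choose j : ℤ[X]) = C ((n.choose j : ℕ) : ℤ) := by simp
    rw [this]
    ring
  rw [e1, coeff_C_mul, coeff_mul_X_pow', coeff_X_add_C_pow]
  unfold U
  by_cases h : 2 * j ≤ l
  · rw [if_pos h, if_pos h]
    rcases Nat.lt_or_ge (n - j) (l - 2 * j) with h1 | h1
    · rw [Nat.choose_eq_zero_of_lt h1]
      simp
    · have h2 : (-1 : ℤ) ^ (n - j - (l - 2 * j)) = (-1) ^ (l + j) := by
        refine par _ _ ?_
        obtain ⟨q, hq⟩ := hn
        exact ⟨q + j, by omega⟩
      rw [h2, pow_add]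
      push_cast
      ring
  · rw [if_neg h, if_neg h]
    simp

theorem choose_step (m k : ℕ) :
    m.choose k * (m + 1) * (m - k) = (m + 1).choose (k + 2) * ((k + 2) * (k + 1)) := by
  have h1 := Nat.add_one_mul_choose_eq m (k + 1)
  have h2 := Nat.choose_succ_right_eq m k
  calc m.choose k * (m + 1) * (m - k) = (m + 1) * (m.choose k * (m - k)) := by ring
    _ = (m + 1) * (m.choose (k + 1) * (k + 1)) := by rw [h2]
    _ = ((m + 1) * m.choose (k + 1)) * (k + 1) := by ring
    _ = ((m + 1).choose (k + 1 + 1) * (k + 1 + 1)) * (k + 1) := by rw [h1]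
    _ = (m + 1).choose (k + 2) * ((k + 2) * (k + 1)) := by ring

theorem ratio (n E l j : ℕ) (hj : j < n) (hl : l ≤ n + j) :
    U n E l (j + 1) * ((j + 1) * (n + j + 1 - l) * E) =
      U n E l j * ((l - 2 * j) * (l - 2 * j - 1)) := by
  unfold U
  rcases Nat.lt_or_ge l (2 * (j + 1)) with h | h
  · rw [if_neg (by omega)]
    have : (l - 2 * j) * (l - 2 * j - 1) = 0 := by
      rcases Nat.lt_or_ge (2 * j) l with h1 | h1
      · have : l - 2 * j - 1 = 0 := by omega
        rw [this, mul_zero]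
      · have : l - 2 * j = 0 := by omega
        rw [this, zero_mul]
    rw [this, zero_mul, mul_zero]
  · rw [if_pos h, if_pos (by omega)]
    obtain ⟨m, hm⟩ : ∃ m, n = j + m + 1 := ⟨n - j - 1, by omega⟩
    obtain ⟨k, hk⟩ : ∃ k, l = 2 * j + k + 2 := ⟨l - 2 * j - 2, by omega⟩
    have e1 : n - (j + 1) = m := by omega
    have e2 : n - j = m + 1 := by omega
    have e3 : l - 2 * (j + 1) = k := by omega
    have e4 : l - 2 * j = k + 2 := by omega
    have e5 : n + j + 1 - l = m - k := by omega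
    have e6 : k + 2 - 1 = k + 1 := by omega
    rw [e1, e2, e3, e4, e5, e6]
    have h1 := Nat.choose_succ_right_eq n j
    rw [e2] at h1
    have h2 := choose_step m k
    calc n.choose (j + 1) * m.choose k * E ^ m * ((j + 1) * (m - k) * E)
        = (n.choose (j + 1) * (j + 1)) * (m.choose k * (m - k)) * (E ^ m * E) := by ring
      _ = (n.choose j * (m + 1)) * (m.choose k * (m - k)) * (E ^ m * E) := by rw [h1]
      _ = n.choose j * (m.choose k * (m + 1) * (m - k)) * (E ^ m * E) := by ring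
      _ = n.choose j * ((m + 1).choose (k + 2) * ((k + 2) * (k + 1))) * (E ^ m * E) := by
          rw [h2]
      _ = n.choose j * (m + 1).choose (k + 2) * E ^ (m + 1) * ((k + 2) * (k + 1)) := by ring

theorem small (n x : ℕ) (hn : 2 ≤ n) (hx : x + 1 ≤ n) : x * (x - 1) < n * (n - 1) := by
  have h1 : x - 1 ≤ n - 1 := by omega
  have h2 : 0 < n - 1 := by omega
  calc x * (x - 1) ≤ x * (n - 1) := Nat.mul_le_mul_left _ h1
    _ < n * (n - 1) := Nat.mul_lt_mul_of_pos_right (by omega) h2

theorem step (n E l j : ℕ) (hn : 2 ≤ n) (hE : 2 * E = n * (n - 1)) (hl : l ≤ n + j)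
    (h2 : 2 ≤ (j + 1) * (n + j + 1 - l)) (h3 : l - 2 * j + 1 ≤ n) :
    U n E l (j + 1) ≤ U n E l j ∧ (0 < U n E l j → U n E l (j + 1) < U n E l j) := by
  rcases Nat.lt_or_ge j n with hj | hj
  · have h4 := ratio n E l j hj hl
    have h5 := small n (l - 2 * j) hn h3
    have hE0 : 0 < E := by
      have : 0 < n * (n - 1) := Nat.mul_pos (by omega) (by omega)
      omega
    have h6 : (l - 2 * j) * (l - 2 * j - 1) < (j + 1) * (n + j + 1 - l) * E := by
      calc (l - 2 * j) * (l - 2 * j - 1) < 2 * E := by rw [hE]; exact h5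
        _ ≤ (j + 1) * (n + j + 1 - l) * E := Nat.mul_le_mul_right _ h2
    constructor
    · by_contra hcon
      have h7 : U n E l j < U n E l (j + 1) := not_le.1 hcon
      have h8 : U n E l j * ((l - 2 * j) * (l - 2 * j - 1)) <
          U n E l (j + 1) * ((j + 1) * (n + j + 1 - l) * E) := by
        calc U n E l j * ((l - 2 * j) * (l - 2 * j - 1))
            ≤ U n E l j * ((j + 1) * (n + j + 1 - l) * E) := Nat.mul_le_mul_left _ h6.le
          _ < _ := Nat.mul_lt_mul_of_pos_right h7 (lt_of_le_of_lt (Nat.zero_le _) h6)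
      omega
    · intro hpos
      by_contra hcon
      have h7 : U n E l j ≤ U n E l (j + 1) := not_lt.1 hcon
      have h8 : U n E l j * ((l - 2 * j) * (l - 2 * j - 1)) <
          U n E l (j + 1) * ((j + 1) * (n + j + 1 - l) * E) := by
        calc U n E l j * ((l - 2 * j) * (l - 2 * j - 1))
            < U n E l j * ((j + 1) * (n + j + 1 - l) * E) := Nat.mul_lt_mul_of_pos_left h6 hpos
          _ ≤ _ := Nat.mul_le_mul_right _ h7
      omega
  · have h4 : U n E l (j + 1) = 0 := by
      unfold U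
      rw [Nat.choose_eq_zero_of_lt (by omega : n < j + 1)]
      simp
    rw [h4]
    exact ⟨Nat.zero_le _, fun h => h⟩

theorem U_lt (n E l j : ℕ) (h : n + j < l) : U n E l j = 0 := by
  unfold U
  split_ifs with h1
  · rcases Nat.lt_or_ge n j with h2 | h2
    · rw [Nat.choose_eq_zero_of_lt h2]
      simp
    · rw [Nat.choose_eq_zero_of_lt (by omega : n - j < l - 2 * j)]
      simp
  · rfl

theorem fam3_sign (n E : ℕ) (hn : 4 ≤ n) (hev : Even n) (hE : 2 * E = n * (n - 1)) (l : ℕ)
    (hl : l ≤ 2 * n) :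
    (((X : ℤ[X]) ^ 2 + C (E : ℤ) * (X + C (-1))) ^ n).coeff l ≠ 0 ∧
      ((((X : ℤ[X]) ^ 2 + C (E : ℤ) * (X + C (-1))) ^ n).coeff l < 0 ↔
        (l < n ∧ Odd l) ∨ l = n) := by
  rw [coeff_formula n E l hev]
  have hE0 : 0 < E := by
    have : 0 < n * (n - 1) := Nat.mul_pos (by omega) (by omega)
    omega
  rcases lt_trichotomy l n with h | h | h
  · -- below the middle
    have h1 : 0 < ∑ j ∈ range (n + 1), (-1) ^ j * (U n E l j : ℤ) := by
      have hs : ∀ j, U n E l (j + 1) ≤ U n E l j ∧ (0 < U n E l j → U n E l (j + 1) < U n E l j) :=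
        fun j => step n E l j (by omega) hE (by omega) (by
          have : 1 * 2 ≤ (j + 1) * (n + j + 1 - l) := Nat.mul_le_mul (by omega) (by omega)
          omega) (by omega)
      have h0 : 0 < U n E l 0 := by
        unfold U
        rw [if_pos (by omega)]
        simp only [Nat.choose_zero_right, one_mul, mul_zero, Nat.sub_zero]
        exact Nat.mul_pos (Nat.choose_pos h.le) (by positivity)
      refine alt2 n (fun j => (U n E l j : ℤ)) (fun j => by positivity) (fun j => ?_) ?_
      · exact_mod_cast (hs j).1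
      · exact_mod_cast (hs 0).2 h0
    have h2 := sign_pow l _ h1
    refine ⟨h2.1, h2.2.trans ⟨fun h3 => Or.inl ⟨h, h3⟩, fun h3 => ?_⟩⟩
    rcases h3 with h3 | h3
    · exact h3.2
    · omega
  · -- the middle
    subst h
    have h1 : ∑ j ∈ range (l + 1), (-1) ^ j * (U l E l j : ℤ) < 0 := by
      have hr0 := ratio l E l 0 (by omega) (by omega)
      have hr1 := ratio l E l 1 (by omega) (by omega)
      have e1 : l + 0 + 1 - l = 1 := by omega
      have e2 : l + 1 + 1 - l = 2 := by omega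
      rw [e1] at hr0
      rw [e2] at hr1
      simp only [zero_add, mul_zero, Nat.sub_zero, one_mul, mul_one] at hr0 hr1
      have h10 : U l E l 1 = 2 * U l E l 0 := by
        rw [← hE] at hr0
        have : U l E l 1 * E = (2 * U l E l 0) * E := by rw [hr0]; ring
        exact Nat.eq_of_mul_eq_mul_right hE0 this
      have h00 : 0 < U l E l 0 := by
        unfold U
        rw [if_pos (by omega)]
        simp only [Nat.choose_zero_right, one_mul, mul_zero, Nat.sub_zero]
        exact Nat.mul_pos (Nat.choose_pos le_rfl) (by positivity)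
      have h20 : U l E l 2 < U l E l 0 := by
        have h5 := small l (l - 2) (by omega) (by omega)
        rw [← hE] at h5
        by_contra hcon
        have h6 : U l E l 0 ≤ U l E l 2 := not_lt.1 hcon
        have h7 : U l E l 1 * ((l - 2) * (l - 2 - 1)) < U l E l 2 * ((1 + 1) * 2 * E) := by
          calc U l E l 1 * ((l - 2) * (l - 2 - 1)) < U l E l 1 * (2 * E) :=
                Nat.mul_lt_mul_of_pos_left h5 (by omega)
            _ = U l E l 0 * ((1 + 1) * 2 * E) := by rw [h10]; ring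
            _ ≤ _ := Nat.mul_le_mul_right _ h6
        exact absurd hr1 h7.ne'
      obtain ⟨m, hm⟩ : ∃ m, l + 1 = m + 2 := ⟨l - 1, by omega⟩
      rw [hm]
      refine alt3 m (fun j => (U l E l j : ℤ)) (fun j => by positivity) (fun j => ?_) ?_ ?_
      · have := (step l E l (j + 1) (by omega) hE (by omega) (by
          have e3 : l + (j + 1) + 1 - l = j + 2 := by omega
          rw [e3]
          have : 2 * 1 ≤ (j + 1 + 1) * (j + 2) := Nat.mul_le_mul (by omega) (by omega)
          omega) (by omega)).1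
        exact_mod_cast this
      · exact_mod_cast h10
      · exact_mod_cast h20
    rw [hev.neg_one_pow, one_mul]
    exact ⟨h1.ne, ⟨fun _ => Or.inr rfl, fun _ => h1⟩⟩
  · -- above the middle
    obtain ⟨s, hs⟩ : ∃ s, l = n + s := ⟨l - n, by omega⟩
    have hs1 : 1 ≤ s := by omega
    have hsn : s ≤ n := by omega
    obtain ⟨m, hm⟩ : ∃ m, n + 1 = s + (m + 1) := ⟨n - s, by omega⟩
    have h1 : 0 < ∑ i ∈ range (m + 1), (-1) ^ i * (U n E l (s + i) : ℤ) := by
      have hs : ∀ i, U n E l (s + (i + 1)) ≤ U n E l (s + i) ∧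
          (0 < U n E l (s + i) → U n E l (s + (i + 1)) < U n E l (s + i)) :=
        fun i => step n E l (s + i) (by omega) hE (by omega) (by
          have e3 : n + (s + i) + 1 - l = i + 1 := by omega
          rw [e3]
          have : 2 * 1 ≤ (s + i + 1) * (i + 1) := Nat.mul_le_mul (by omega) (by omega)
          omega) (by omega)
      have h0 : 0 < U n E l (s + 0) := by
        unfold U
        rw [if_pos (by omega)]
        have e4 : n - (s + 0) = l - 2 * (s + 0) := by omega
        rw [e4, Nat.choose_self, mul_one]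
        exact Nat.mul_pos (Nat.choose_pos (by omega)) (by positivity)
      refine alt2 m (fun i => (U n E l (s + i) : ℤ)) (fun j => by positivity) (fun j => ?_) ?_
      · exact_mod_cast (hs j).1
      · exact_mod_cast (hs 0).2 h0
    have h2 : ∑ j ∈ range (n + 1), (-1) ^ j * (U n E l j : ℤ) =
        (-1) ^ s * ∑ i ∈ range (m + 1), (-1) ^ i * (U n E l (s + i) : ℤ) := by
      rw [hm, sum_range_add, mul_sum]
      have h3 : ∑ x ∈ range s, (-1 : ℤ) ^ x * (U n E l x : ℤ) = 0 := by
        refine sum_eq_zero fun x hx => ?_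
        rw [U_lt n E l x (by have := mem_range.1 hx; omega)]
        simp
      rw [h3, zero_add]
      refine sum_congr rfl fun i _ => ?_
      rw [pow_add]
      ring
    have h3 : (-1 : ℤ) ^ l * (-1) ^ s = 1 := by
      rw [← pow_add]
      have : Even (l + s) := by
        obtain ⟨q, hq⟩ := hev
        exact ⟨q + s, by omega⟩
      exact this.neg_one_pow
    rw [h2, ← mul_assoc, h3, one_mul]
    refine ⟨h1.ne', ⟨fun h4 => absurd h4 (not_lt.2 h1.le), fun h4 => ?_⟩⟩
    rcases h4 with h4 | h4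
    · omega
    · omega

/-- Quadratic arguments, degree divisible by four. -/
theorem fam3 (n E : ℕ) (hn : 4 ≤ n) (h4 : n % 4 = 0) (hE : 2 * E = n * (n - 1)) :
    (∀ l ≤ 2 * n, (((X : ℤ[X]) ^ 2 + C (E : ℤ) * (X + C (-1))) ^ n).coeff l ≠ 0) ∧
      Odd (neg (((X : ℤ[X]) ^ 2 + C (E : ℤ) * (X + C (-1))) ^ n) (2 * n)) := by
  have hev : Even n := by rw [Nat.even_iff]; omega
  have hc := fam3_sign n E hn hev hE
  refine ⟨fun l hl => (hc l hl).1, ?_⟩
  have h1 : neg (((X : ℤ[X]) ^ 2 + C (E : ℤ) * (X + C (-1))) ^ n) (2 * n) =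
      (insert n ((range (n - 1 + 1)).filter fun l => Odd l)).card := by
    unfold neg
    congr 1
    ext l
    rw [mem_filter, mem_range, mem_insert, mem_filter, mem_range]
    constructor
    · rintro ⟨a, b⟩
      rcases (hc l (by omega)).2.1 b with h | h
      · exact Or.inr ⟨by omega, h.2⟩
      · exact Or.inl h
    · rintro (h | ⟨a, b⟩)
      · exact ⟨by omega, (hc l (by omega)).2.2 (Or.inr h)⟩
      · exact ⟨by omega, (hc l (by omega)).2.2 (Or.inl ⟨by omega, b⟩)⟩
  rw [h1, card_insert_of_notMem, card_odd, Nat.odd_iff]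
  · omega
  · rw [mem_filter, mem_range]
    omega

end Pool.Agent.Lib.MP_8fac0f_nt.RL
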