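import Pool.Agent.Lib.MP_8fac0f_nt.N.Defs

/-!
# Digit sums of values of integer polynomials at powers of two

If the coefficients of `Q` are small against `2 ^ k`, then passing from `Q (2 ^ k)` to
`Q (2 ^ (k + 1))` changes the parity of the digit sum by the number of negative coefficients.
-/

set_option autoImplicit false

namespace Pool.Agent.Lib.MP_8fac0f_nt.RL

open Finset Polynomial N

/-- The number of the negative coefficients up to `n`. -/
def neg (Q : ℤ[X]) (n : ℕ) : ℕ := ((range (n + 1)).filter fun i => Q.coeff i < 0).card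

theorem neg_succ (Q : ℤ[X]) (n : ℕ) :
    neg Q (n + 1) = ((range (n + 1)).filter fun i => Q.coeff (i + 1) < 0).card +
      if Q.coeff 0 < 0 then 1 else 0 := by
  unfold neg
  rw [card_filter, sum_range_succ', card_filter]

theorem sg_block (k : ℕ) (E r : ℤ) (hE : 0 ≤ E) (hr : 0 ≤ r) (hr' : r < 2 ^ k) :
    sg (E * 2 ^ k + r).toNat = sg r.toNat * sg E.toNat := by
  obtain ⟨E, rfl⟩ := Int.eq_ofNat_of_zero_le hE
  obtain ⟨r, rfl⟩ := Int.eq_ofNat_of_zero_le hr
  have h1 : ((E : ℤ) * 2 ^ k + (r : ℤ)).toNat = 2 ^ k * E + r := by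
    have : (E : ℤ) * 2 ^ k + (r : ℤ) = ((2 ^ k * E + r : ℕ) : ℤ) := by push_cast; ring
    rw [this, Int.toNat_natCast]
  rw [h1, sg_split k E r (by exact_mod_cast hr')]
  simp

theorem flip (k n : ℕ) : ∀ Q : ℤ[X], Q.natDegree ≤ n → (0 < n → 0 < Q.coeff n) →
    (n = 0 → 0 ≤ Q.coeff 0) → (∀ i, 1 ≤ i → i < n → Q.coeff i ≠ 0) → |Q.coeff 0| < 2 ^ k →
    (∀ i, 1 ≤ i → i ≤ n → |Q.coeff i| + 1 < 2 ^ k) →
    0 ≤ Q.eval (2 ^ k) ∧ 0 ≤ Q.eval (2 ^ (k + 1)) ∧
      sg (Q.eval (2 ^ (k + 1))).toNat = (-1) ^ neg Q n * sg (Q.eval (2 ^ k)).toNat := by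
  induction n with
  | zero =>
    intro Q hd _ h0 _ _ _
    have hQ : Q = C (Q.coeff 0) := eq_C_of_natDegree_le_zero hd
    have h1 := h0 rfl
    have hneg : neg Q 0 = 0 := by
      unfold neg
      rw [card_eq_zero, filter_eq_empty_iff]
      intro i hi
      rw [mem_range] at hi
      have : i = 0 := by omega
      rw [this]
      omega
    rw [hneg]
    have h2 : ∀ x : ℤ, Q.eval x = Q.coeff 0 := fun x => by
      conv_lhs => rw [hQ]
      simp
    rw [h2, h2]
    simp [h1]
  | succ n ih =>
    intro Q hd hlead _ hne hb0 hb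
    have hev : ∀ x : ℤ, Q.eval x = Q.divX.eval x * x + Q.coeff 0 := by
      intro x
      conv_lhs => rw [← divX_mul_X_add Q]
      simp
    have hdd : Q.divX.natDegree ≤ n := by
      rw [natDegree_divX_eq_natDegree_tsub_one]
      omega
    have hlead' : 0 < Q.coeff (n + 1) := hlead (Nat.succ_pos n)
    have h1ne : Q.coeff 1 ≠ 0 := by
      rcases Nat.eq_zero_or_pos n with h | h
      · subst h; exact hlead'.ne'
      · exact hne 1 le_rfl (by omega)
    have hb1 := hb 1 le_rfl (by omega)
    have hpow : (2 : ℤ) ^ (k + 1) = 2 ^ k + 2 ^ k := by ring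
    have hpos : (0 : ℤ) < 2 ^ k := by positivity
    rcases le_or_gt 0 (Q.coeff 0) with h0 | h0
    · -- no borrow
      obtain ⟨e1, e2, e3⟩ := ih Q.divX hdd (fun _ => by rw [coeff_divX]; exact hlead')
        (fun h => by subst h; rw [coeff_divX]; exact hlead'.le)
        (fun i hi hi' => by rw [coeff_divX]; exact hne (i + 1) (by omega) (by omega))
        (by rw [coeff_divX]; simpa using lt_trans (lt_add_one _) hb1)
        (fun i hi hi' => by rw [coeff_divX]; exact hb (i + 1) (by omega) (by omega))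
      rw [abs_of_nonneg h0] at hb0
      have hneg : neg Q (n + 1) = neg Q.divX n := by
        rw [neg_succ, if_neg (not_lt.2 h0), add_zero]
        unfold neg
        simp only [coeff_divX]
      rw [hev, hev, hneg]
      refine ⟨by positivity, by positivity, ?_⟩
      rw [sg_block k _ _ e1 h0 hb0, sg_block (k + 1) _ _ e2 h0 (by omega), e3]
      ring
    · -- borrow
      obtain ⟨e1, e2, e3⟩ := ih (Q.divX - C 1) ((natDegree_sub_le _ _).trans (by simp [hdd]))
        (fun hn => by
          rw [coeff_sub, coeff_divX, coeff_C, if_neg (by omega), sub_zero]; exact hlead')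
        (fun h => by
          subst h
          rw [coeff_sub, coeff_divX, coeff_C_zero]
          have : 0 < Q.coeff (0 + 1) := hlead'
          omega)
        (fun i hi hi' => by
          rw [coeff_sub, coeff_divX, coeff_C, if_neg (by omega), sub_zero]
          exact hne (i + 1) (by omega) (by omega))
        (by
          rw [coeff_sub, coeff_divX, coeff_C_zero]
          have : |Q.coeff (0 + 1) - 1| ≤ |Q.coeff 1| + 1 := by
            simpa using abs_sub (Q.coeff 1) 1
          exact lt_of_le_of_lt this hb1)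
        (fun i hi hi' => by
          rw [coeff_sub, coeff_divX, coeff_C, if_neg (by omega), sub_zero]
          exact hb (i + 1) (by omega) (by omega))
      rw [abs_of_neg h0] at hb0
      have hneg : neg Q (n + 1) = neg (Q.divX - C 1) n + 1 := by
        rw [neg_succ, if_pos h0]
        unfold neg
        congr 2
        refine filter_congr fun i _ => ?_
        rw [coeff_sub, coeff_divX, coeff_C]
        rcases Nat.eq_zero_or_pos i with h | h
        · subst h
          rw [if_pos rfl, zero_add]
          omega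
        · rw [if_neg (by omega), sub_zero]
      have hE : ∀ x : ℤ, (Q.divX - C 1).eval x = Q.divX.eval x - 1 := fun x => by simp
      rw [hE] at e1 e2 e3
      rw [hE] at e3
      have f1 : Q.eval (2 ^ k) = (Q.divX.eval (2 ^ k) - 1) * 2 ^ k + (2 ^ k + Q.coeff 0) := by
        rw [hev]; ring
      have f2 : Q.eval (2 ^ (k + 1)) = (Q.divX.eval (2 ^ (k + 1)) - 1) * 2 ^ (k + 1) +
          (2 ^ (k + 1) + Q.coeff 0) := by
        rw [hev]; ring
      have g1 : 0 ≤ 2 ^ k + Q.coeff 0 := by omega
      have g2 : 2 ^ k + Q.coeff 0 < 2 ^ k := by omega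
      have g3 : 0 ≤ 2 ^ (k + 1) + Q.coeff 0 := by omega
      have g4 : 2 ^ (k + 1) + Q.coeff 0 < 2 ^ (k + 1) := by omega
      rw [f1, f2, hneg]
      refine ⟨by positivity, by positivity, ?_⟩
      rw [sg_block k _ _ e1 g1 g2, sg_block (k + 1) _ _ e2 g3 g4, e3]
      have g5 : sg (2 ^ (k + 1) + Q.coeff 0).toNat = -sg (2 ^ k + Q.coeff 0).toNat := by
        have : (2 : ℤ) ^ (k + 1) + Q.coeff 0 = 1 * 2 ^ k + (2 ^ k + Q.coeff 0) := by
          rw [hpow]; ring
        rw [this, sg_block k _ _ one_pos.le g1 g2]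
        simp [sg_one]
      rw [g5, pow_succ]
      ring

/-- A polynomial with small coefficients which vanishes at `2 ^ k` is zero. -/
theorem small_root (k n : ℕ) : ∀ U : ℤ[X], U.natDegree ≤ n → (∀ i, |U.coeff i| < 2 ^ k) →
    U.eval (2 ^ k) = 0 → U = 0 := by
  induction n with
  | zero =>
    intro U hd _ h
    have hU : U = C (U.coeff 0) := eq_C_of_natDegree_le_zero hd
    rw [hU] at h ⊢
    simpa using h
  | succ n ih =>
    intro U hd hb h
    have hev : U.eval (2 ^ k) = U.divX.eval (2 ^ k) * 2 ^ k + U.coeff 0 := by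
      conv_lhs => rw [← divX_mul_X_add U]
      simp
    rw [hev] at h
    have h1 : (2 : ℤ) ^ k ∣ U.coeff 0 := ⟨-U.divX.eval (2 ^ k), by linarith⟩
    have h2 : U.coeff 0 = 0 := Int.eq_zero_of_abs_lt_dvd h1 (hb 0)
    rw [h2, add_zero] at h
    have h3 : U.divX.eval (2 ^ k) = 0 := by
      rcases mul_eq_zero.1 h with h | h
      · exact h
      · exact absurd h (by positivity)
    have h4 := ih U.divX (by rw [natDegree_divX_eq_natDegree_tsub_one]; omega)
      (fun i => by rw [coeff_divX]; exact hb _) h3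
    rw [← divX_mul_X_add U, h4, h2]
    simp

end Pool.Agent.Lib.MP_8fac0f_nt.RL
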