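import Pool.Agent.Lib.MP_8fac0f_nt.RL.Flip

/-!
# Bounds for the sum of the absolute values of the coefficients
-/

set_option autoImplicit false

namespace Pool.Agent.Lib.MP_8fac0f_nt.RL

open Finset Polynomial

/-- `b` bounds the sum of the absolute values of the coefficients of `U`. -/
def Nb (U : ℤ[X]) (b : ℤ) : Prop :=
  ∃ V : ℤ[X], (∀ i, |U.coeff i| ≤ V.coeff i) ∧ V.eval 1 ≤ b

theorem coeff_le_eval_one (V : ℤ[X]) (h : ∀ i, 0 ≤ V.coeff i) (i : ℕ) :
    V.coeff i ≤ V.eval 1 := by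
  rw [eval_eq_sum_range]
  simp only [one_pow, mul_one]
  by_cases hi : i ∈ range (V.natDegree + 1)
  · exact single_le_sum (f := fun i => V.coeff i) (fun i _ => h i) hi
  · rw [coeff_eq_zero_of_natDegree_lt (by simpa using hi)]
    exact sum_nonneg fun i _ => h i

theorem Nb.coeff {U : ℤ[X]} {b : ℤ} (h : Nb U b) (i : ℕ) : |U.coeff i| ≤ b := by
  obtain ⟨V, h1, h2⟩ := h
  exact (h1 i).trans ((coeff_le_eval_one V (fun i => (abs_nonneg _).trans (h1 i)) i).trans h2)

theorem Nb.nonneg {U : ℤ[X]} {b : ℤ} (h : Nb U b) : 0 ≤ b :=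
  (abs_nonneg _).trans (h.coeff 0)

theorem Nb.mono {U : ℤ[X]} {b b' : ℤ} (h : Nb U b) (hb : b ≤ b') : Nb U b' := by
  obtain ⟨V, h1, h2⟩ := h
  exact ⟨V, h1, h2.trans hb⟩

theorem Nb.add {U U' : ℤ[X]} {b b' : ℤ} (h : Nb U b) (h' : Nb U' b') : Nb (U + U') (b + b') := by
  obtain ⟨V, h1, h2⟩ := h
  obtain ⟨V', h1', h2'⟩ := h'
  refine ⟨V + V', fun i => ?_, by rw [eval_add]; exact add_le_add h2 h2'⟩
  rw [coeff_add, coeff_add]
  exact (abs_add_le _ _).trans (add_le_add (h1 i) (h1' i))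

theorem Nb.mul {U U' : ℤ[X]} {b b' : ℤ} (h : Nb U b) (h' : Nb U' b') : Nb (U * U') (b * b') := by
  have hb := h.nonneg
  obtain ⟨V, h1, h2⟩ := h
  obtain ⟨V', h1', h2'⟩ := h'
  refine ⟨V * V', fun i => ?_, ?_⟩
  · rw [coeff_mul, coeff_mul]
    refine (abs_sum_le_sum_abs _ _).trans (sum_le_sum fun x _ => ?_)
    rw [abs_mul]
    exact mul_le_mul (h1 _) (h1' _) (abs_nonneg _) ((abs_nonneg _).trans (h1 _))
  · rw [eval_mul]
    refine mul_le_mul h2 h2' ?_ hb
    exact ((abs_nonneg _).trans (h1' 0)).trans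
      (coeff_le_eval_one V' (fun i => (abs_nonneg _).trans (h1' i)) 0)

theorem Nb.monomial (n : ℕ) (a : ℤ) : Nb (monomial n a) |a| := by
  refine ⟨Polynomial.monomial n |a|, fun i => ?_, by simp⟩
  rw [coeff_monomial, coeff_monomial]
  split_ifs <;> simp

theorem Nb.C (a : ℤ) : Nb (Polynomial.C a) |a| := by
  simpa using Nb.monomial 0 a

theorem Nb.pow {U : ℤ[X]} {b : ℤ} (h : Nb U b) (n : ℕ) : Nb (U ^ n) (b ^ n) := by
  induction n with
  | zero => simpa using Nb.C 1
  | succ n ih => rw [pow_succ, pow_succ]; exact ih.mul h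

theorem Nb.sum {ι : Type*} (s : Finset ι) (f : ι → ℤ[X]) (b : ι → ℤ)
    (h : ∀ i ∈ s, Nb (f i) (b i)) : Nb (∑ i ∈ s, f i) (∑ i ∈ s, b i) := by
  classical
  induction s using Finset.induction_on with
  | empty => simpa using Nb.C 0
  | insert a s ha ih =>
    rw [sum_insert ha, sum_insert ha]
    exact (h a (mem_insert_self _ _)).add (ih fun i hi => h i (mem_insert_of_mem hi))

theorem exists_nb (U : ℤ[X]) : ∃ b : ℤ, Nb U b := by
  induction U using Polynomial.induction_on' with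
  | add p q hp hq =>
    obtain ⟨b, hb⟩ := hp
    obtain ⟨b', hb'⟩ := hq
    exact ⟨b + b', hb.add hb'⟩
  | monomial n a => exact ⟨|a|, Nb.monomial n a⟩

theorem Nb.eval {U : ℤ[X]} {b : ℤ} (h : Nb U b) (n : ℕ) (hn : U.natDegree ≤ n) (x : ℤ)
    (hx : 1 ≤ x) : |U.eval x| ≤ b * x ^ n := by
  obtain ⟨V, h1, h2⟩ := h
  set m := max U.natDegree V.natDegree + 1 with hm
  rw [eval_eq_sum_range' (n := m) (by omega)]
  rw [eval_eq_sum_range' (n := m) (by omega)] at h2
  simp only [one_pow, mul_one] at h2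
  refine (abs_sum_le_sum_abs _ _).trans ?_
  have h3 : ∑ i ∈ range m, |U.coeff i * x ^ i| ≤ ∑ i ∈ range m, V.coeff i * x ^ n := by
    refine sum_le_sum fun i _ => ?_
    have hV : 0 ≤ V.coeff i := (abs_nonneg _).trans (h1 i)
    have hxn : 0 ≤ x ^ n := by positivity
    rcases le_or_gt i n with hi | hi
    · rw [abs_mul, abs_of_nonneg (by positivity : 0 ≤ x ^ i)]
      exact mul_le_mul (h1 i) (pow_le_pow_right₀ hx hi) (by positivity) hV
    · rw [coeff_eq_zero_of_natDegree_lt (by omega)]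
      simpa using mul_nonneg hV hxn
  refine h3.trans ?_
  rw [← sum_mul]
  exact mul_le_mul_of_nonneg_right h2 (by positivity)

/-- The difference of two powers. -/
theorem Nb.pow_sub {T T0 : ℤ[X]} {b w : ℤ} (hT : Nb T b) (hT0 : Nb T0 b) (hw : Nb (T - T0) w)
    (n : ℕ) : Nb (T ^ (n + 1) - T0 ^ (n + 1)) ((n + 1) * b ^ n * w) := by
  induction n with
  | zero => simpa using hw
  | succ n ih =>
    have h1 := (hT.mul ih).add (hw.mul (hT0.pow (n + 1)))
    have e1 : T ^ (n + 1 + 1) - T0 ^ (n + 1 + 1) =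
        T * (T ^ (n + 1) - T0 ^ (n + 1)) + (T - T0) * T0 ^ (n + 1) := by ring
    rw [e1]
    refine h1.mono (le_of_eq ?_)
    push_cast
    ring

/-- A polynomial with positive top coefficient is positive beyond its other coefficients. -/
theorem eval_pos (n : ℕ) (x : ℤ) (hx : 1 ≤ x) : ∀ U : ℤ[X], U.natDegree ≤ n → 0 < U.coeff n →
    (∀ i, i < n → |U.coeff i| < x) → 0 < U.eval x := by
  induction n with
  | zero =>
    intro U hd h0 _
    have hU : U = Polynomial.C (U.coeff 0) := eq_C_of_natDegree_le_zero hd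
    rw [hU]
    simpa using h0
  | succ n ih =>
    intro U hd h0 hb
    have hev : U.eval x = U.divX.eval x * x + U.coeff 0 := by
      conv_lhs => rw [← divX_mul_X_add U]
      simp
    have h1 := ih U.divX (by rw [natDegree_divX_eq_natDegree_tsub_one]; omega)
      (by rw [coeff_divX]; exact h0) (fun i hi => by rw [coeff_divX]; exact hb _ (by omega))
    have h2 := (abs_lt.1 (hb 0 (by omega))).1
    rw [hev]
    nlinarith

end Pool.Agent.Lib.MP_8fac0f_nt.RL
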