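import Pool.Agent.Lib.MP_8fac0f_nt.RL.Tri

/-!
# The coefficients modulo a power of three
-/

set_option autoImplicit false

namespace Pool.Agent.Lib.MP_8fac0f_nt.RL

open Finset Polynomial N

/-- `3 ^ (e d) P ((m1 X + m0) / 3 ^ e)`. -/
noncomputable def Q (P : ℕ[X]) (d e m1 m0 : ℕ) : ℕ[X] :=
  ∑ i ∈ range (d + 1), C (P.coeff i * 3 ^ (e * (d - i))) * (C m1 * X + C m0) ^ i

theorem Q_natDegree (P : ℕ[X]) (d e m1 m0 : ℕ) : (Q P d e m1 m0).natDegree ≤ d := by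
  refine natDegree_sum_le_of_forall_le _ _ fun i hi => ?_
  have h1 : (C m1 * X + C m0 : ℕ[X]).natDegree ≤ 1 := natDegree_linear_le
  refine (natDegree_C_mul_le _ _).trans (natDegree_pow_le.trans ?_)
  have h2 := Nat.mul_le_mul_left i h1
  have h3 := mem_range.1 hi
  omega

theorem Q_eval (P : ℕ[X]) (d e m1 m0 x n : ℕ) (hd : P.natDegree = d)
    (h : m1 * x + m0 = 3 ^ e * n) : (Q P d e m1 m0).eval x = 3 ^ (e * d) * P.eval n := by
  unfold Q
  rw [eval_finsetSum, eval_eq_sum_range, hd, mul_sum]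
  refine sum_congr rfl fun i hi => ?_
  have hi' : i ≤ d := Nat.lt_succ_iff.1 (mem_range.1 hi)
  obtain ⟨j, hj⟩ : ∃ j, d = i + j := ⟨d - i, by omega⟩
  have e1 : d - i = j := by omega
  simp only [eval_mul, eval_C, eval_pow, eval_add, eval_X]
  rw [h, e1, hj, mul_add, pow_add, mul_pow, ← pow_mul]
  ring

theorem Q_V (P : ℕ[X]) (d e m1 m0 j : ℕ) :
    V (fun l => (Q P d e m1 m0).coeff l) j d = (Q P d e m1 m0).eval (2 ^ j) := by
  rw [eval_eq_sum_range' (Nat.lt_succ_iff.2 (Q_natDegree P d e m1 m0))]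
  unfold V
  exact sum_congr rfl fun l _ => by rw [pow_mul]

theorem Q_coeff_le (P : ℕ[X]) (d e m1 m0 B l : ℕ) (hd : P.natDegree = d) (hB : 1 ≤ B)
    (h : m1 + m0 ≤ B) : (Q P d e m1 m0).coeff l ≤ P.eval 1 * 3 ^ (e * d) * B ^ d := by
  have h1 : (Q P d e m1 m0).coeff l ≤ (Q P d e m1 m0).eval 1 := by
    rw [eval_eq_sum_range' (Nat.lt_succ_iff.2 (Q_natDegree P d e m1 m0))]
    simp only [one_pow, mul_one]
    by_cases hl : l ∈ range (d + 1)
    · exact single_le_sum (f := fun i => (Q P d e m1 m0).coeff i) (fun i _ => Nat.zero_le _) hl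
    · have := Q_natDegree P d e m1 m0
      rw [mem_range] at hl
      rw [coeff_eq_zero_of_natDegree_lt (by omega)]
      exact Nat.zero_le _
  refine h1.trans ?_
  unfold Q
  rw [eval_finsetSum, eval_eq_sum_range, hd, sum_mul, sum_mul]
  refine sum_le_sum fun i hi => ?_
  have hi' : i ≤ d := Nat.lt_succ_iff.1 (mem_range.1 hi)
  simp only [eval_mul, eval_C, eval_pow, eval_add, eval_X, mul_one, one_pow]
  have h2 : (m1 + m0) ^ i ≤ B ^ d :=
    (Nat.pow_le_pow_left h i).trans (Nat.pow_le_pow_right hB hi')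
  have h3 : 3 ^ (e * (d - i)) ≤ 3 ^ (e * d) :=
    Nat.pow_le_pow_right (by norm_num) (Nat.mul_le_mul_left _ (Nat.sub_le _ _))
  exact Nat.mul_le_mul (Nat.mul_le_mul_left _ h3) h2

theorem Q_map (P : ℕ[X]) (d e m1 m0 k : ℕ) (hd : P.natDegree = d)
    (hm : 3 ^ e ∣ m1 * 2 ^ k + m0) (j : ℕ) :
    (((Q P d e m1 m0).coeff j : ℕ) : ZMod (3 ^ e)) =
      (P.leadingCoeff : ZMod (3 ^ e)) * (m1 : ZMod (3 ^ e)) ^ d *
        ((-(2 ^ k)) ^ (d - j) * (d.choose j : ZMod (3 ^ e))) := by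
  have h0 : ((3 : ZMod (3 ^ e)) ^ e) = 0 := by
    have := ZMod.natCast_self (3 ^ e)
    push_cast at this
    exact this
  have hm0 : (m0 : ZMod (3 ^ e)) = (m1 : ZMod (3 ^ e)) * (-(2 ^ k)) := by
    have h1 : ((m1 * 2 ^ k + m0 : ℕ) : ZMod (3 ^ e)) = 0 := (ZMod.natCast_eq_zero_iff _ _).2 hm
    push_cast at h1
    linear_combination h1
  have hmap : (Q P d e m1 m0).map (Nat.castRingHom (ZMod (3 ^ e))) =
      C ((P.leadingCoeff : ZMod (3 ^ e)) * (m1 : ZMod (3 ^ e)) ^ d) * (X + C (-(2 ^ k))) ^ d := by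
    unfold Q
    rw [Polynomial.map_sum, sum_range_succ, sum_eq_zero, zero_add]
    · simp only [Polynomial.map_mul, Polynomial.map_pow, Polynomial.map_add, map_C, map_X,
        Nat.sub_self, mul_zero, pow_zero, mul_one, Nat.coe_castRingHom]
      rw [hm0, leadingCoeff, hd]
      simp only [C_mul, C_pow, C_neg, mul_neg, ← sub_eq_add_neg]
      rw [← mul_sub, mul_pow]
      ring
    · intro i hi
      have hi' := mem_range.1 hi
      simp only [Polynomial.map_mul, Polynomial.map_pow, Polynomial.map_add, map_C, map_X,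
        Nat.coe_castRingHom]
      have h1 : ((P.coeff i * 3 ^ (e * (d - i)) : ℕ) : ZMod (3 ^ e)) = 0 := by
        push_cast
        rw [pow_mul, h0, zero_pow (by omega), mul_zero]
      rw [h1]
      simp
  have h2 := congrArg (fun U => U.coeff j) hmap
  simp only [coeff_map, eq_natCast, coeff_C_mul, coeff_X_add_C_pow] at h2
  exact h2

theorem nondiv (P : ℕ[X]) (d e m1 m0 k l : ℕ) (hd : P.natDegree = d)
    (hm : 3 ^ e ∣ m1 * 2 ^ k + m0) (hP : 0 < P.leadingCoeff) (hm1 : ¬ 3 ∣ m1)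
    (he : P.leadingCoeff * 2 ^ d < 3 ^ e) (hl : l < d) :
    ¬ 3 ^ e ∣ V (fun i => (Q P d e m1 m0).coeff (i + (l + 1))) k (d - (l + 1)) := by
  intro hdiv
  set a := P.leadingCoeff with ha
  have h1 : ((V (fun i => (Q P d e m1 m0).coeff (i + (l + 1))) k (d - (l + 1)) : ℕ) : ZMod (3 ^ e)) = 0 :=
    (ZMod.natCast_eq_zero_iff _ _).2 hdiv
  have h2 : ((V (fun i => (Q P d e m1 m0).coeff (i + (l + 1))) k (d - (l + 1)) : ℕ) : ZMod (3 ^ e)) *
      (2 ^ k) ^ (l + 1) = (a : ZMod (3 ^ e)) * (m1 : ZMod (3 ^ e)) ^ d * (2 ^ k) ^ d *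
        ((∑ s ∈ range (d - (l + 1) + 1), ((-1) ^ s * (d.choose s : ℤ)) : ℤ) : ZMod (3 ^ e)) := by
    have e1 : (∑ s ∈ range (d - (l + 1) + 1), ((-1) ^ s * (d.choose s : ℤ)) : ℤ) =
        ∑ i ∈ range (d - (l + 1) + 1),
          ((-1) ^ (d - (l + 1) - i) * (d.choose (d - (l + 1) - i) : ℤ)) :=
      (sum_flip (fun s => (-1 : ℤ) ^ s * (d.choose s : ℤ))).symm
    rw [e1]
    unfold V
    push_cast
    rw [sum_mul, mul_sum]
    refine sum_congr rfl fun i hi => ?_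
    have hi' : i ≤ d - (l + 1) := Nat.lt_succ_iff.1 (mem_range.1 hi)
    rw [Q_map P d e m1 m0 k hd hm (i + (l + 1))]
    obtain ⟨s, hs⟩ : ∃ s, d = i + (l + 1) + s := ⟨d - (i + (l + 1)), by omega⟩
    have e2 : d - (l + 1) - i = s := by omega
    have e3 : d - (i + (l + 1)) = s := by omega
    have e4 : d.choose (i + (l + 1)) = d.choose s := by
      rw [hs, Nat.choose_symm_add]
    rw [e2, e3, e4]
    have e5 : (2 : ZMod (3 ^ e)) ^ (k * i) = (2 ^ k) ^ i := by rw [pow_mul]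
    have e6 : ((2 : ZMod (3 ^ e)) ^ k) ^ d = (2 ^ k) ^ i * (2 ^ k) ^ (l + 1) * (2 ^ k) ^ s := by
      rw [← pow_add, ← pow_add, ← hs]
    rw [e5, e6, neg_pow]
    ring
  obtain ⟨n, hn⟩ : ∃ n, d = n + 1 := ⟨d - 1, by omega⟩
  obtain ⟨t, ht, htn⟩ : ∃ t, n + 1 - (l + 1) = t ∧ t ≤ n := ⟨n - l, by omega, by omega⟩
  rw [h1, zero_mul, hn, ht, Int.alternating_sum_range_choose_eq_choose] at h2
  have h3 : ((a * m1 ^ (n + 1) * (2 ^ k) ^ (n + 1) * n.choose t : ℕ) : ZMod (3 ^ e)) = 0 := by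
    push_cast at h2 ⊢
    have h4 : ((-1 : ZMod (3 ^ e)) ^ t) * (-1) ^ t = 1 := by
      rw [← pow_add, ← two_mul, pow_mul]
      simp
    linear_combination (-(-1 : ZMod (3 ^ e)) ^ t) * h2 -
      (a : ZMod (3 ^ e)) * (m1 : ZMod (3 ^ e)) ^ (n + 1) * (2 ^ k) ^ (n + 1) * (n.choose t : ZMod (3 ^ e)) * h4
  have h5 := (ZMod.natCast_eq_zero_iff _ _).1 h3
  have hc2 : Nat.Coprime (3 ^ e) ((2 ^ k) ^ (n + 1)) := by
    rw [← pow_mul]
    exact Nat.Coprime.pow _ _ (by norm_num)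
  have hc1 : Nat.Coprime (3 ^ e) (m1 ^ (n + 1)) :=
    Nat.Coprime.pow _ _ ((Nat.Prime.coprime_iff_not_dvd Nat.prime_three).2 hm1)
  have h6 : 3 ^ e ∣ a * n.choose t := by
    have h7 : 3 ^ e ∣ (a * n.choose t) * m1 ^ (n + 1) * (2 ^ k) ^ (n + 1) := by
      have : (a * n.choose t) * m1 ^ (n + 1) * (2 ^ k) ^ (n + 1) =
          a * m1 ^ (n + 1) * (2 ^ k) ^ (n + 1) * n.choose t := by ring
      rw [this]; exact h5
    exact hc1.dvd_of_dvd_mul_right (hc2.dvd_of_dvd_mul_right h7)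
  have h8 : 0 < a * n.choose t :=
    Nat.mul_pos hP (Nat.choose_pos (by omega))
  have h9 := Nat.le_of_dvd h8 h6
  have h10 : n.choose t ≤ 2 ^ d := by
    calc n.choose t ≤ ∑ m ∈ range (n + 1), n.choose m :=
          single_le_sum (f := fun m => n.choose m) (fun _ _ => Nat.zero_le _)
            (mem_range.2 (by omega))
      _ = 2 ^ n := Nat.sum_range_choose n
      _ ≤ 2 ^ d := Nat.pow_le_pow_right (by norm_num) (by omega)
  have h11 := Nat.mul_le_mul_left a h10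
  omega

end Pool.Agent.Lib.MP_8fac0f_nt.RL
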