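import Pool.Agent.Lib.MP_8fac0f_nt.RL.Odd

/-!
# Odd degrees: counting
-/

set_option autoImplicit false

namespace Pool.Agent.Lib.MP_8fac0f_nt.RL

open Finset Polynomial N

/-- The least residue which makes `m1 2 ^ k + m0` divisible by `3 ^ e`. -/
def res (e k m1 : ℕ) : ℕ := (m1 * 2 ^ k * (3 ^ e - 1)) % 3 ^ e

theorem res_lt (e k m1 : ℕ) : res e k m1 < 3 ^ e := Nat.mod_lt _ (by positivity)

theorem dvd_res (e k j m1 B : ℕ) (h : 2 ^ j ≡ 2 ^ k [MOD 3 ^ e]) :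
    3 ^ e ∣ m1 * 2 ^ j + (3 ^ e * B + res e k m1) := by
  rw [← Nat.modEq_zero_iff_dvd]
  have h1 : res e k m1 ≡ m1 * 2 ^ k * (3 ^ e - 1) [MOD 3 ^ e] := Nat.mod_modEq _ _
  have h2 : 3 ^ e * B ≡ 0 [MOD 3 ^ e] := Nat.modEq_zero_iff_dvd.2 (Dvd.intro _ rfl)
  have h3 : m1 * 2 ^ j ≡ m1 * 2 ^ k [MOD 3 ^ e] := h.mul_left m1
  have h4 := h3.add (h2.add h1)
  refine h4.trans (Nat.modEq_zero_iff_dvd.2 ⟨m1 * 2 ^ k, ?_⟩)
  obtain ⟨q, hq⟩ : ∃ q, 3 ^ e = q + 1 := ⟨3 ^ e - 1, by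
    have : 0 < 3 ^ e := by positivity
    omega⟩
  rw [hq, Nat.add_sub_cancel]
  ring

theorem twin3 (P : ℕ[X]) (d : ℕ) (hd : P.natDegree = d) (hodd : Odd d) :
    ∃ lam : ℕ, ∀ μ N : ℕ, 2 ^ (lam + (d + 1) * μ) ≤ N → ∀ ε : ℝ, (ε = 1 ∨ ε = -1) →
      2 ^ (2 * μ) ≤ 2 * ((range N).filter fun n => sg (P.eval n) = ε).card := by
  have hd1 : 1 ≤ d := hodd.pos
  have hP0 : P ≠ 0 := by rintro rfl; simp at hd; omega
  have hlc : 0 < P.leadingCoeff := Nat.pos_of_ne_zero (leadingCoeff_ne_zero.2 hP0)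
  set a := P.leadingCoeff with ha
  set e := a * 2 ^ d with he
  have he1 : 1 ≤ e := Nat.mul_pos hlc (by positivity)
  have he3 : a * 2 ^ d < 3 ^ e := Nat.lt_pow_self (by norm_num)
  obtain ⟨m, hm⟩ : ∃ m, e * d = m + 1 := ⟨e * d - 1, by
    have : 0 < e * d := Nat.mul_pos he1 hd1
    omega⟩
  obtain ⟨w, hw⟩ := three m
  set h := 3 ^ m with hh
  have hhodd : Odd h := Odd.pow (by decide)
  set z := 3 ^ (e * d) with hz
  have hzw : z * w = 2 ^ h + 1 := by rw [hz, hm]; exact hw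
  have hz0 : 0 < z := by positivity
  have hdz : 3 ^ e ∣ z := pow_dvd_pow 3 (by nlinarith)
  set K := P.eval 1 * z * (3 + 3 ^ e) ^ d + 3 ^ e + 3 with hK
  have hκ : K < 2 ^ K := Nat.lt_two_pow_self
  refine ⟨2 * K + 2 * h, fun μ N hN ε hε => ?_⟩
  set M := 2 ^ μ with hM
  set k := d * μ + K with hk
  have hM1 : 1 ≤ M := Nat.one_le_two_pow
  have hMd : M ≤ M ^ d := Nat.le_self_pow (by omega) M
  have h2k : 2 ^ k = M ^ d * 2 ^ K := by rw [hk, hM, pow_add, ← pow_mul, mul_comm μ]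
  have hMd1 : 1 ≤ M ^ d := Nat.one_le_pow _ _ hM1
  set F : Finset (ℕ × ℕ) := range M ×ˢ range M with hF
  set m1 : ℕ × ℕ → ℕ := fun p => 3 * p.1 + 1 with hm1
  set m0 : ℕ × ℕ → ℕ := fun p => 3 ^ e * p.2 + res e k (m1 p) with hm0
  set n : ℕ → ℕ × ℕ → ℕ := fun j p => (m1 p * 2 ^ j + m0 p) / 3 ^ e with hn
  have hm0lt : ∀ p ∈ F, m0 p < 3 ^ e * M := fun p hp => by
    have h1 := res_lt e k (m1 p)
    have h2 := mem_range.1 (mem_product.1 hp).2
    have h3 : 3 ^ e * (p.2 + 1) ≤ 3 ^ e * M := Nat.mul_le_mul_left _ h2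
    rw [mul_add, mul_one] at h3
    change 3 ^ e * p.2 + res e k (m1 p) < _
    omega
  have hm1lt : ∀ p ∈ F, m1 p ≤ 3 * M := fun p hp => by
    have h2 := mem_range.1 (mem_product.1 hp).1
    change 3 * p.1 + 1 ≤ _
    omega
  have hpm : 2 ^ (k + 2 * h) ≡ 2 ^ k [MOD 3 ^ e] := (pow_mod z w h k hzw).of_dvd hdz
  have hn' : ∀ j, 2 ^ j ≡ 2 ^ k [MOD 3 ^ e] → ∀ p, m1 p * 2 ^ j + m0 p = 3 ^ e * n j p :=
    fun j hj p => (Nat.mul_div_cancel' (dvd_res e k j (m1 p) p.2 hj)).symm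
  have hPV : ∀ j, 2 ^ j ≡ 2 ^ k [MOD 3 ^ e] → ∀ p,
      P.eval (n j p) = V (fun l => (Q P d e (m1 p) (m0 p)).coeff l) j d / z := fun j hj p => by
    rw [Q_V, Q_eval P d e (m1 p) (m0 p) (2 ^ j) (n j p) hd (hn' j hj p)]
    exact (Nat.mul_div_cancel_left _ hz0).symm
  have hb : ∀ p ∈ F, ∀ l, (Q P d e (m1 p) (m0 p)).coeff l < 2 ^ k := fun p hp l => by
    have h1 : m1 p + m0 p ≤ (3 + 3 ^ e) * M := by
      have := hm1lt p hp
      have := hm0lt p hp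
      rw [add_mul]
      omega
    have h2 := Q_coeff_le P d e (m1 p) (m0 p) ((3 + 3 ^ e) * M) l hd
      (Nat.mul_pos (by positivity) hM1) h1
    calc _ ≤ P.eval 1 * 3 ^ (e * d) * ((3 + 3 ^ e) * M) ^ d := h2
      _ = (P.eval 1 * z * (3 + 3 ^ e) ^ d) * M ^ d := by rw [mul_pow]; ring
      _ < 2 ^ K * M ^ d := Nat.mul_lt_mul_of_pos_right (by omega) hMd1
      _ = 2 ^ k := by rw [h2k, mul_comm]
  -- the letters differ
  have hflip : ∀ p ∈ F, sg (P.eval (n (k + 2 * h) p)) = -sg (P.eval (n k p)) := fun p hp => by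
    rw [hPV k rfl p, hPV _ hpm p,
      horner z w h k d hzw _ (hb p hp) (fun l hl hdv => ?_), (hhodd.mul hodd).neg_one_pow,
      neg_one_mul]
    exact nondiv P d e (m1 p) (m0 p) k l hd (dvd_res e k k (m1 p) p.2 rfl) hlc
      (by change ¬ 3 ∣ 3 * p.1 + 1; omega) he3 hl (hdz.trans hdv)
  -- bounds
  have hup : ∀ p ∈ F, ∀ j, j ≤ k + 2 * h → n j p < N := fun p hp j hj => by
    have h1 : n j p ≤ m1 p * 2 ^ j + m0 p := Nat.div_le_self _ _
    have h2 : m1 p * 2 ^ j ≤ 3 * M * 2 ^ (k + 2 * h) :=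
      Nat.mul_le_mul (hm1lt p hp) (Nat.pow_le_pow_right (by norm_num) hj)
    have h3 : m0 p < 3 ^ e * M := hm0lt p hp
    have h4 : 3 ^ e * M ≤ 3 ^ e * M * 2 ^ (k + 2 * h) := Nat.le_mul_of_pos_right _ (by positivity)
    have h5 : 3 * M * 2 ^ (k + 2 * h) + 3 ^ e * M * 2 ^ (k + 2 * h) ≤ N := by
      calc 3 * M * 2 ^ (k + 2 * h) + 3 ^ e * M * 2 ^ (k + 2 * h)
          = (3 + 3 ^ e) * (M * 2 ^ (k + 2 * h)) := by ring
        _ ≤ 2 ^ K * (M * 2 ^ (k + 2 * h)) := Nat.mul_le_mul_right _ (by omega)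
        _ = 2 ^ (2 * K + 2 * h + (d + 1) * μ) := by
            rw [hM, hk, ← pow_add, ← pow_add]
            congr 1
            ring
        _ ≤ N := hN
    omega
  -- injectivity
  have hinj : ∀ j, k ≤ j → 2 ^ j ≡ 2 ^ k [MOD 3 ^ e] → Set.InjOn (n j) (F : Set (ℕ × ℕ)) :=
    fun j hj hj' p hp q hq hpq => by
    have hp := mem_coe.1 hp
    have hq := mem_coe.1 hq
    have h0 : m1 p * 2 ^ j + m0 p = m1 q * 2 ^ j + m0 q := by
      rw [hn' j hj' p, hn' j hj' q, hpq]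
    have hlt : ∀ r ∈ F, m0 r < 2 ^ j := fun r hr => by
      have h1 := hm0lt r hr
      have h2 : 3 ^ e * M ≤ 2 ^ j := by
        calc 3 ^ e * M ≤ 2 ^ K * M ^ d := Nat.mul_le_mul (by omega) hMd
          _ = 2 ^ k := by rw [h2k, mul_comm]
          _ ≤ 2 ^ j := Nat.pow_le_pow_right (by norm_num) hj
      omega
    have h1 : m1 p = m1 q := by
      have e1 : (m0 p + 2 ^ j * m1 p) / 2 ^ j = m1 p := by
        rw [Nat.add_mul_div_left _ _ (by positivity), Nat.div_eq_of_lt (hlt p hp), zero_add]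
      have e2 : (m0 q + 2 ^ j * m1 q) / 2 ^ j = m1 q := by
        rw [Nat.add_mul_div_left _ _ (by positivity), Nat.div_eq_of_lt (hlt q hq), zero_add]
      rw [← e1, ← e2]
      congr 1
      rw [mul_comm, mul_comm (2 ^ j)]
      omega
    have h2 : m0 p = m0 q := by
      rw [h1] at h0
      omega
    have h3 : p.1 = q.1 := by
      have : 3 * p.1 + 1 = 3 * q.1 + 1 := h1
      omega
    have h4 : p.2 = q.2 := by
      have h5 : 3 ^ e * p.2 + res e k (m1 p) = 3 ^ e * q.2 + res e k (m1 q) := h2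
      rw [h1] at h5
      exact Nat.eq_of_mul_eq_mul_left (by positivity : 0 < 3 ^ e) (by omega)
    exact Prod.ext h3 h4
  -- counting
  have hcard : F.card = 2 ^ (2 * μ) := by
    rw [hF, card_product, card_range, hM, ← pow_add, two_mul]
  set S := (range N).filter fun n => sg (P.eval n) = ε with hS
  have hcov : F ⊆ (F.filter fun p => n k p ∈ S) ∪ F.filter fun p => n (k + 2 * h) p ∈ S := by
    intro p hp
    rw [mem_union]
    have h1 := hflip p hp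
    have h2 := hup p hp k (by omega)
    have h3 := hup p hp (k + 2 * h) le_rfl
    have key : ∀ x y : ℝ, (x = 1 ∨ x = -1) → y = -x → x = ε ∨ y = ε := by
      rintro x y (rfl | rfl) rfl
      · rcases hε with rfl | rfl
        · left; rfl
        · right; rfl
      · rcases hε with rfl | rfl
        · right; ring
        · left; rfl
    rcases key _ _ (sg_cases _) h1 with h | h
    · exact Or.inl (mem_filter.2 ⟨hp, mem_filter.2 ⟨mem_range.2 h2, h⟩⟩)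
    · exact Or.inr (mem_filter.2 ⟨hp, mem_filter.2 ⟨mem_range.2 h3, h⟩⟩)
  have hone : ∀ j, k ≤ j → 2 ^ j ≡ 2 ^ k [MOD 3 ^ e] →
      (F.filter fun p => n j p ∈ S).card ≤ S.card := fun j hj hj' => by
    refine card_le_card_of_injOn (n j) (fun p hp => (mem_filter.1 (mem_coe.1 hp)).2) ?_
    exact (hinj j hj hj').mono fun p hp => mem_coe.2 (mem_filter.1 (mem_coe.1 hp)).1
  rw [← hcard]
  calc F.card ≤ _ := card_le_card hcov
    _ ≤ _ := card_union_le _ _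
    _ ≤ S.card + S.card := Nat.add_le_add (hone k le_rfl rfl) (hone _ (by omega) hpm)
    _ = 2 * S.card := by rw [two_mul]

end Pool.Agent.Lib.MP_8fac0f_nt.RL
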