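import Pool.Agent.Lib.MP_8fac0f_nt.N.Defs

/-!
# Digit sums of quotients of values at powers of two

If `z w = 2 ^ h + 1`, then passing from `2 ^ k` to `2 ^ (k + 2 h)` changes the parity of the
digit sum of `V (2 ^ k) / z` by `h` times the number of the nonzero remainders in Horner's scheme.
-/

set_option autoImplicit false

namespace Pool.Agent.Lib.MP_8fac0f_nt.RL

open Finset N

/-- The value at `2 ^ j` of the polynomial with the coefficients `b 0, ..., b n`. -/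
def V (b : ℕ → ℕ) (j n : ℕ) : ℕ := ∑ l ∈ range (n + 1), b l * 2 ^ (j * l)

theorem V_succ (b : ℕ → ℕ) (j n : ℕ) :
    V b j (n + 1) = b 0 + 2 ^ j * V (fun l => b (l + 1)) j n := by
  unfold V
  rw [sum_range_succ', mul_sum, add_comm]
  congr 1
  · simp
  · refine sum_congr rfl fun l _ => ?_
    rw [mul_add, mul_one, pow_add]
    ring

theorem sg_mul_pred (h y : ℕ) (h1 : 1 ≤ y) (h2 : y ≤ 2 ^ h) :
    sg (y * (2 ^ h - 1)) = (-1) ^ h := by
  obtain ⟨x, rfl⟩ : ∃ x, y = x + 1 := ⟨y - 1, by omega⟩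
  obtain ⟨m, hm⟩ : ∃ m, 2 ^ h = m + 1 := ⟨2 ^ h - 1, by omega⟩
  have e1 : (x + 1) * (2 ^ h - 1) = 2 ^ h * x + (m - x) := by
    obtain ⟨t, ht⟩ : ∃ t, m = x + t := ⟨m - x, by omega⟩
    have : m - x = t := by omega
    rw [this, hm, Nat.add_sub_cancel, ht]
    ring
  have e2 : x + (m - x) + 1 = 2 ^ h := by omega
  rw [e1, sg_split h x (m - x) (by omega), sg_compl h x (m - x) e2, mul_assoc, sg_sq, mul_one]

theorem block (z w h k b ρ : ℕ) (hz : z * w = 2 ^ h + 1) (hb : b < 2 ^ k) (hρ : ρ < z) :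
    (b + 2 ^ k * ρ) / z < 2 ^ k ∧ (b + 2 ^ (k + 2 * h) * ρ) / z < 2 ^ (k + 2 * h) ∧
      (ρ ≠ 0 → sg ((b + 2 ^ (k + 2 * h) * ρ) / z) = (-1) ^ h * sg ((b + 2 ^ k * ρ) / z)) := by
  have hz0 : 0 < z := lt_of_le_of_lt (Nat.zero_le _) hρ
  have hlt : ∀ K : ℕ, b < 2 ^ K → (b + 2 ^ K * ρ) / z < 2 ^ K := fun K hK => by
    rw [Nat.div_lt_iff_lt_mul hz0]
    have : 2 ^ K * (ρ + 1) ≤ 2 ^ K * z := Nat.mul_le_mul_left _ hρ
    rw [mul_add, mul_one] at this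
    omega
  have h1 := hlt k hb
  refine ⟨h1, hlt _ (lt_of_lt_of_le hb (Nat.pow_le_pow_right (by norm_num) (by omega))), ?_⟩
  intro hρ0
  have hw0 : 0 < w := Nat.pos_of_ne_zero (by rintro rfl; simp at hz)
  have h2h : 1 ≤ 2 ^ h := Nat.one_le_two_pow
  have e1 : b + 2 ^ (k + 2 * h) * ρ = (b + 2 ^ k * ρ) + z * (2 ^ k * (ρ * w * (2 ^ h - 1))) := by
    obtain ⟨m, hm⟩ : ∃ m, 2 ^ h = m + 1 := ⟨2 ^ h - 1, by omega⟩
    have e2 : z * (2 ^ k * (ρ * w * (2 ^ h - 1))) = 2 ^ k * ρ * ((z * w) * (2 ^ h - 1)) := by ring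
    rw [e2, hz, pow_add, two_mul, pow_add, hm, Nat.add_sub_cancel]
    ring
  have e3 : (b + 2 ^ (k + 2 * h) * ρ) / z =
      2 ^ k * (ρ * w * (2 ^ h - 1)) + (b + 2 ^ k * ρ) / z := by
    rw [e1, Nat.add_mul_div_left _ _ hz0, add_comm]
  rw [e3, sg_split k _ _ h1, sg_mul_pred h (ρ * w) (Nat.mul_pos (Nat.pos_of_ne_zero hρ0) hw0) ?_]
  · ring
  · have h3 : ρ * w < z * w := Nat.mul_lt_mul_of_pos_right hρ hw0
    omega

theorem pow_mod (z w h k : ℕ) (hz : z * w = 2 ^ h + 1) : 2 ^ (k + 2 * h) ≡ 2 ^ k [MOD z] := by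
  have h1 : 2 ^ (2 * h) ≡ 1 [MOD z] := by
    have h2 : 2 ^ (2 * h) = 1 + z * (w * (2 ^ h - 1)) := by
      obtain ⟨m, hm⟩ : ∃ m, 2 ^ h = m + 1 := ⟨2 ^ h - 1, by
        have : 1 ≤ 2 ^ h := Nat.one_le_two_pow
        omega⟩
      rw [← mul_assoc, hz, two_mul, pow_add, hm, Nat.add_sub_cancel]
      ring
    rw [h2]
    have : 1 + z * (w * (2 ^ h - 1)) ≡ 1 + 0 [MOD z] :=
      Nat.ModEq.add_left 1 ((Nat.modEq_zero_iff_dvd).2 (Dvd.intro _ rfl))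
    rwa [add_zero] at this
  rw [pow_add]
  simpa using h1.mul_left (2 ^ k)

theorem V_mod (z w h k n : ℕ) (b : ℕ → ℕ) (hz : z * w = 2 ^ h + 1) :
    V b (k + 2 * h) n % z = V b k n % z := by
  change V b (k + 2 * h) n ≡ V b k n [MOD z]
  unfold V
  refine Nat.ModEq.sum fun l _ => ?_
  rw [pow_mul, pow_mul]
  exact ((pow_mod z w h k hz).pow l).mul_left (b l)

theorem three (m : ℕ) : ∃ w, 3 ^ (m + 1) * w = 2 ^ 3 ^ m + 1 := by
  induction m with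
  | zero => exact ⟨1, by norm_num⟩
  | succ m ih =>
    obtain ⟨w, hw⟩ := ih
    have h3 : 2 ^ 3 ^ (m + 1) = (2 ^ 3 ^ m) ^ 3 := by rw [← pow_mul, pow_succ]
    rw [h3]
    obtain ⟨g, hg⟩ : ∃ g, 2 ^ 3 ^ m = g := ⟨_, rfl⟩
    rw [hg] at hw ⊢
    obtain ⟨t, ht⟩ : ∃ t, g + 1 = 3 * t := ⟨3 ^ m * w, by rw [← hw]; ring⟩
    obtain ⟨s, hs⟩ : ∃ s, t = s + 1 := ⟨t - 1, by omega⟩
    have h2 : g = 3 * s + 2 := by omega
    refine ⟨w * (3 * s ^ 2 + 3 * s + 1), ?_⟩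
    calc 3 ^ (m + 1 + 1) * (w * (3 * s ^ 2 + 3 * s + 1))
        = (3 ^ (m + 1) * w) * (3 * (3 * s ^ 2 + 3 * s + 1)) := by ring
      _ = (3 * s + 2 + 1) * (3 * (3 * s ^ 2 + 3 * s + 1)) := by rw [hw, h2]
      _ = (3 * s + 2) ^ 3 + 1 := by ring
      _ = g ^ 3 + 1 := by rw [← h2]

theorem horner (z w h k n : ℕ) (hz : z * w = 2 ^ h + 1) : ∀ b : ℕ → ℕ, (∀ l, b l < 2 ^ k) →
    (∀ l, l < n → ¬ z ∣ V (fun i => b (i + (l + 1))) k (n - (l + 1))) →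
    sg (V b (k + 2 * h) n / z) = (-1) ^ (h * n) * sg (V b k n / z) := by
  have hz0 : 0 < z := Nat.pos_of_ne_zero (by rintro rfl; simp at hz)
  induction n with
  | zero => intro b _ _; simp [V]
  | succ n ih =>
    intro b hb hnd
    set b' : ℕ → ℕ := fun l => b (l + 1) with hb'
    have h1 := ih b' (fun l => hb _) (fun l hl => by
      have := hnd (l + 1) (by omega)
      have e1 : n + 1 - (l + 1 + 1) = n - (l + 1) := by omega
      rw [e1] at this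
      exact this)
    have h2 : ¬ z ∣ V b' k n := by
      have := hnd 0 (Nat.succ_pos n)
      simpa using this
    set ρ := V b' k n % z with hρ
    have hρ' : V b' (k + 2 * h) n % z = ρ := V_mod z w h k n b' hz
    have hρ0 : ρ ≠ 0 := fun h3 => h2 (Nat.dvd_of_mod_eq_zero h3)
    obtain ⟨a1, a2, a3⟩ := block z w h k (b 0) ρ hz (hb 0) (Nat.mod_lt _ hz0)
    have hdiv : ∀ j, V b' j n % z = ρ →
        V b j (n + 1) / z = 2 ^ j * (V b' j n / z) + (b 0 + 2 ^ j * ρ) / z := fun j hj => by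
      rw [V_succ]
      conv_lhs => rw [← hb', ← Nat.div_add_mod (V b' j n) z, hj]
      have : b 0 + 2 ^ j * (z * (V b' j n / z) + ρ) =
          (b 0 + 2 ^ j * ρ) + z * (2 ^ j * (V b' j n / z)) := by ring
      rw [this, Nat.add_mul_div_left _ _ hz0, add_comm]
    rw [hdiv k rfl, hdiv (k + 2 * h) hρ', sg_split _ _ _ a1, sg_split _ _ _ a2, a3 hρ0, h1]
    have : (-1 : ℝ) ^ (h * (n + 1)) = (-1) ^ h * (-1) ^ (h * n) := by
      rw [← pow_add]; congr 1; ring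
    rw [this]
    ring

end Pool.Agent.Lib.MP_8fac0f_nt.RL
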