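import Pool.Agent.Lib.MP_8fac0f_nt.RL.Cnt

/-!
# Many pairs of arguments with different Thue-Morse letters: counting
-/

set_option autoImplicit false

namespace Pool.Agent.Lib.MP_8fac0f_nt.RL

open Finset Polynomial N

/-- The number of the arguments with a given sign. -/
noncomputable def cnt (P : ℤ[X]) (ε : ℝ) (N : ℕ) : ℕ :=
  ((range N).filter fun n : ℕ => sg (P.eval (n : ℤ)).toNat = ε).card

theorem neg_congr (U V : ℤ[X]) (n : ℕ) (h : ∀ i ≤ n, (U.coeff i < 0 ↔ V.coeff i < 0)) :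
    neg U n = neg V n := by
  unfold neg
  congr 1
  exact filter_congr fun i hi => h i (Nat.lt_succ_iff.1 (mem_range.1 hi))

theorem twin (A P : ℤ[X]) (D d : ℕ) (hD : A.natDegree = D) (hA : 0 < A.leadingCoeff)
    (hd : P.natDegree = d + 1) (hP : 0 < P.leadingCoeff)
    (hne : ∀ l ≤ D * (d + 1), (A ^ (d + 1)).coeff l ≠ 0)
    (hodd : Odd (neg (A ^ (d + 1)) (D * (d + 1)))) :
    ∃ lam μ0 : ℕ, ∀ μ : ℕ, μ0 ≤ μ → ∀ N : ℕ, 2 ^ (lam + (D * (d + 1) + 1) * μ) ≤ N →
      ∀ ε : ℝ, (ε = 1 ∨ ε = -1) → 2 ^ ((D + 1) * μ) ≤ 2 * cnt P ε N := by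
  obtain ⟨L, B, H, M0, hL, hB, hH, hall⟩ := shape A P D d hA hd hP hne
  obtain ⟨κ, hκ⟩ : ∃ κ : ℕ, B + H + 1 < 2 ^ κ :=
    ⟨(B + H + 1).toNat, by
      have h1 : (B + H + 1).toNat < 2 ^ (B + H + 1).toNat := Nat.lt_two_pow_self
      have h2 : ((B + H + 1).toNat : ℤ) = B + H + 1 := Int.toNat_of_nonneg (by omega)
      calc B + H + 1 = ((B + H + 1).toNat : ℤ) := h2.symm
        _ < ((2 ^ (B + H + 1).toNat : ℕ) : ℤ) := by exact_mod_cast h1
        _ = 2 ^ (B + H + 1).toNat := by push_cast; rfl⟩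
  refine ⟨κ + (κ + 1) * D, M0.toNat, fun μ hμ N hN ε hε => ?_⟩
  set M : ℤ := 2 ^ μ with hM
  set k : ℕ := (d + 1) * μ + κ with hk
  have hM1 : 1 ≤ M := one_le_pow₀ (by norm_num)
  have hM0 : M0 ≤ M := by
    have h1 : μ < 2 ^ μ := Nat.lt_two_pow_self
    have h2 : (μ : ℤ) < M := by rw [hM]; exact_mod_cast h1
    have := Int.self_le_toNat M0
    omega
  have hMd : M ≤ M ^ (d + 1) := le_self_pow₀ hM1 (Nat.succ_ne_zero d)
  have h2k : (2 : ℤ) ^ k = M ^ (d + 1) * 2 ^ κ := by
    rw [hk, hM, pow_add, ← pow_mul, mul_comm μ]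
  have hsucc : (2 : ℤ) ^ (k + 1) = 2 ^ k + 2 ^ k := by ring
  have hkpos : (1 : ℤ) ≤ 2 ^ k := one_le_pow₀ (by norm_num)
  have hBk : B * M < 2 ^ k := by
    rw [h2k]
    calc B * M ≤ B * M ^ (d + 1) := mul_le_mul_of_nonneg_left hMd (by omega)
      _ < 2 ^ κ * M ^ (d + 1) := mul_lt_mul_of_pos_right (by omega) (by positivity)
      _ = M ^ (d + 1) * 2 ^ κ := by ring
  have hHk : H * M ^ (d + 1) + 1 < 2 ^ k := by
    have h1 : 1 ≤ M ^ (d + 1) := one_le_pow₀ hM1
    rw [h2k]
    calc H * M ^ (d + 1) + 1 ≤ (H + 1) * M ^ (d + 1) := by nlinarith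
      _ < 2 ^ κ * M ^ (d + 1) := mul_lt_mul_of_pos_right (by omega) (by positivity)
      _ = M ^ (d + 1) * 2 ^ κ := by ring
  -- the arguments
  set T : (Fin (D + 1) → ℕ) → ℤ[X] := fun w => C (L * M) * A + W D w with hT
  have hTdeg : ∀ w, (T w).natDegree ≤ D := fun w =>
    natDegree_add_le_of_degree_le ((natDegree_C_mul_le _ _).trans hD.le) (W_natDegree D w)
  have hTtop : ∀ w, 0 < (T w).coeff D := fun w => by
    have h1 : (T w).coeff D = L * M * A.coeff D + w (Fin.last D) := by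
      have := W_coeff D w (Fin.last D)
      rw [Fin.val_last] at this
      simp only [hT, coeff_add, coeff_C_mul, this]
    have h2 : 0 < A.coeff D := by rw [← hD]; exact hA
    rw [h1]
    positivity
  set F : Finset (Fin (D + 1) → ℕ) := Fintype.piFinset fun _ => range (2 ^ μ) with hF
  have hFw : ∀ w ∈ F, ∀ i, (w i : ℤ) < M := fun w hw i => by
    have := mem_range.1 (Fintype.mem_piFinset.1 hw i)
    rw [hM]
    exact_mod_cast this
  have hpos : ∀ w ∈ F, ∀ j, k ≤ j → 0 < (T w).eval (2 ^ j) := fun w hw j hj => by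
    refine eval_pos D _ (one_le_pow₀ (by norm_num)) (T w) (hTdeg w) (hTtop w) fun i _ => ?_
    have h1 := ((hall M hM0 hM1 w (hFw w hw)).1).coeff i
    have h2 : (2 : ℤ) ^ k ≤ 2 ^ j := pow_le_pow_right₀ (by norm_num) hj
    exact lt_of_le_of_lt h1 (lt_of_lt_of_le hBk h2)
  have hup : ∀ w ∈ F, ∀ j, j ≤ k + 1 → ((T w).eval (2 ^ j)).toNat < N := fun w hw j hj => by
    have h1 := ((hall M hM0 hM1 w (hFw w hw)).1).eval D (hTdeg w) (2 ^ j)
      (one_le_pow₀ (by norm_num))
    have h2 : (T w).eval (2 ^ j) < 2 ^ (κ + (κ + 1) * D + (D * (d + 1) + 1) * μ) := by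
      calc (T w).eval (2 ^ j) ≤ B * M * (2 ^ j) ^ D := (le_abs_self _).trans h1
        _ ≤ B * M * (2 ^ (k + 1)) ^ D :=
            mul_le_mul_of_nonneg_left (pow_le_pow_left₀ (by positivity)
              (pow_le_pow_right₀ (by norm_num) hj) D) (by positivity)
        _ = B * (M * (2 ^ (k + 1)) ^ D) := by ring
        _ < 2 ^ κ * (M * (2 ^ (k + 1)) ^ D) := mul_lt_mul_of_pos_right (by omega) (by positivity)
        _ = 2 ^ (κ + (κ + 1) * D + (D * (d + 1) + 1) * μ) := by
            rw [hM, hk, ← pow_mul, ← pow_add, ← pow_add]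
            congr 1
            ring
    have h3 : ((2 ^ (κ + (κ + 1) * D + (D * (d + 1) + 1) * μ) : ℕ) : ℤ) ≤ N := by
      exact_mod_cast hN
    push_cast at h3
    have h4 : 0 < N := lt_of_lt_of_le (by positivity) hN
    omega
  -- the letters differ
  have hflip : ∀ w ∈ F, sg (P.eval (((T w).eval (2 ^ (k + 1))).toNat : ℤ)).toNat =
      -sg (P.eval (((T w).eval (2 ^ k)).toNat : ℤ)).toNat := fun w hw => by
    obtain ⟨-, n2, n3⟩ := hall M hM0 hM1 w (hFw w hw)
    have hcd : (P.comp (T w)).natDegree ≤ D * (d + 1) := by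
      refine natDegree_comp_le.trans ?_
      rw [hd, mul_comm]
      exact Nat.mul_le_mul_right _ (hTdeg w)
    have hA' : (A ^ (d + 1)).coeff (D * (d + 1)) = A.leadingCoeff ^ (d + 1) := by
      have h1 : (A ^ (d + 1)).natDegree = D * (d + 1) := by rw [natDegree_pow, hD, mul_comm]
      rw [← h1, ← leadingCoeff, leadingCoeff_pow]
    have hlead : 0 < (P.comp (T w)).coeff (D * (d + 1)) := by
      obtain ⟨m1, m2⟩ := n3 (D * (d + 1)) le_rfl
      have h1 : ¬ (A ^ (d + 1)).coeff (D * (d + 1)) < 0 := by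
        rw [hA']; exact not_lt.2 (by positivity)
      exact lt_of_le_of_ne (not_lt.1 fun h => h1 (m2.1 h)) (Ne.symm m1)
    obtain ⟨-, -, h3⟩ := flip k (D * (d + 1)) (P.comp (T w)) hcd (fun _ => hlead)
      (fun h => by rw [h] at hlead; exact hlead.le)
      (fun i _ hi => (n3 i hi.le).1)
      (lt_of_le_of_lt (n2.coeff 0) (by omega))
      (fun i _ _ => lt_of_le_of_lt (add_le_add (n2.coeff i) le_rfl) hHk)
    have hnegc : neg (P.comp (T w)) (D * (d + 1)) = neg (A ^ (d + 1)) (D * (d + 1)) :=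
      neg_congr _ _ _ fun i hi => (n3 i hi).2
    rw [hnegc, hodd.neg_one_pow, eval_comp, eval_comp] at h3
    rw [Int.toNat_of_nonneg (hpos w hw k le_rfl).le,
      Int.toNat_of_nonneg (hpos w hw (k + 1) (Nat.le_succ k)).le, h3]
    ring
  -- injectivity
  have hinj : ∀ j, k ≤ j → Set.InjOn (fun w => ((T w).eval (2 ^ j)).toNat) (F : Set _) :=
    fun j hj w hw w' hw' hww => by
    have hw := mem_coe.1 hw
    have hw' := mem_coe.1 hw'
    have h0 : (T w).eval (2 ^ j) = (T w').eval (2 ^ j) := by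
      have h1 := hpos w hw j hj
      have h2 := hpos w' hw' j hj
      have h3 : ((T w).eval (2 ^ j)).toNat = ((T w').eval (2 ^ j)).toNat := hww
      omega
    have h1 : (W D w - W D w').eval (2 ^ j) = 0 := by
      have : W D w - W D w' = T w - T w' := by simp only [hT]; ring
      rw [this, eval_sub, h0, sub_self]
    have hMk : M ≤ 2 ^ j := by
      have h2 : (2 : ℤ) ^ k ≤ 2 ^ j := pow_le_pow_right₀ (by norm_num) hj
      nlinarith
    have h2 : W D w - W D w' = 0 := by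
      refine small_root j D _
        ((natDegree_sub_le_of_le (W_natDegree D w) (W_natDegree D w')).trans (max_self D).le)
        (fun i => ?_) h1
      rw [coeff_sub]
      rcases Nat.lt_or_ge i (D + 1) with hi | hi
      · have e1 := W_coeff D w ⟨i, hi⟩
        have e2 := W_coeff D w' ⟨i, hi⟩
        simp only at e1 e2
        rw [e1, e2]
        have l1 := hFw w hw ⟨i, hi⟩
        have l2 := hFw w' hw' ⟨i, hi⟩
        rw [abs_lt]
        constructor <;> omega
      · rw [coeff_eq_zero_of_natDegree_lt (lt_of_le_of_lt (W_natDegree D w) hi),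
          coeff_eq_zero_of_natDegree_lt (lt_of_le_of_lt (W_natDegree D w') hi)]
        simp
    funext i
    have h3 : (W D w).coeff i = (W D w').coeff i := by
      rw [sub_eq_zero.1 h2]
    rw [W_coeff, W_coeff] at h3
    exact_mod_cast h3
  -- counting
  have hcard : F.card = 2 ^ ((D + 1) * μ) := by
    rw [hF, Fintype.card_piFinset_const, card_range, ← pow_mul, mul_comm]
  set S := (range N).filter fun n : ℕ => sg (P.eval (n : ℤ)).toNat = ε with hS
  have hcov : F ⊆ (F.filter fun w => ((T w).eval (2 ^ k)).toNat ∈ S) ∪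
      F.filter fun w => ((T w).eval (2 ^ (k + 1))).toNat ∈ S := by
    intro w hw
    rw [mem_union]
    have h1 := hflip w hw
    have h2 := hup w hw k (Nat.le_succ k)
    have h3 := hup w hw (k + 1) le_rfl
    have key : ∀ x y : ℝ, (x = 1 ∨ x = -1) → y = -x → x = ε ∨ y = ε := by
      rintro x y (rfl | rfl) rfl
      · rcases hε with rfl | rfl
        · left; rfl
        · right; rfl
      · rcases hε with rfl | rfl
        · right; ring
        · left; rfl
    rcases key _ _ (sg_cases _) h1 with h | h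
    · exact Or.inl (mem_filter.2 ⟨hw, mem_filter.2 ⟨mem_range.2 h2, h⟩⟩)
    · exact Or.inr (mem_filter.2 ⟨hw, mem_filter.2 ⟨mem_range.2 h3, h⟩⟩)
  have hone : ∀ j, k ≤ j → (F.filter fun w => ((T w).eval (2 ^ j)).toNat ∈ S).card ≤ S.card :=
    fun j hj => by
    refine card_le_card_of_injOn (fun w => ((T w).eval (2 ^ j)).toNat)
      (fun w hw => (mem_filter.1 (mem_coe.1 hw)).2) ?_
    exact (hinj j hj).mono fun w hw => mem_coe.2 (mem_filter.1 (mem_coe.1 hw)).1
  rw [← hcard]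
  calc F.card ≤ _ := card_le_card hcov
    _ ≤ _ := card_union_le _ _
    _ ≤ S.card + S.card := Nat.add_le_add (hone k le_rfl) (hone (k + 1) (Nat.le_succ k))
    _ = 2 * cnt P ε N := by unfold cnt; rw [two_mul]

end Pool.Agent.Lib.MP_8fac0f_nt.RL
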